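import Mathlib
import Pool.Agent.TH876.KR.Gens
import Pool.Agent.W45.AK.UNI

set_option autoImplicit false

/-! # Small generators of prime powers and bounded unit exponents over a number field -/

namespace Pool.Agent.Y496

open NumberField IsDedekindDomain Finset Pool.Agent.H691R3 Pool.Agent.TH876.Loc Module

namespace GC

variable {K : Type} [Field K] [NumberField K]

/-- the norm of an integer as a product over the infinite places -/
theorem prod_eq_absNorm (x : 𝓞 K) :
    ∏ w : InfinitePlace K, w (x : K) ^ w.mult = (Ideal.absNorm (Ideal.span {x}) : ℝ) := by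
  rw [InfinitePlace.prod_eq_abs_norm, Ideal.absNorm_span_singleton]
  have h : Algebra.norm ℚ (x : K) = ((Algebra.norm ℤ x : ℤ) : ℚ) := (Algebra.coe_norm_int x).symm
  rw [h, Nat.cast_natAbs]
  push_cast
  rfl

omit [NumberField K] in
theorem coe_ne {x : 𝓞 K} (hx : x ≠ 0) : (x : K) ≠ 0 := RingOfIntegers.coe_ne_zero_iff.mpr hx

/-- `∑ mult log = log norm` -/
theorem sum_log (x : 𝓞 K) (hx : x ≠ 0) :
    ∑ w : InfinitePlace K, (w.mult : ℝ) * Real.log (w (x : K)) =
      Real.log (Ideal.absNorm (Ideal.span {x}) : ℝ) := by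
  rw [← prod_eq_absNorm, Real.log_prod]
  · refine Finset.sum_congr rfl fun w _ => ?_
    rw [Real.log_pow]
  · intro w _
    exact pow_ne_zero _ (InfinitePlace.pos_iff.mpr (coe_ne hx)).ne'

variable (K) in
/-- generators of the powers of the primes with bounded conjugates -/
theorem genA : ∃ (C : ℝ) (π : Pr K → 𝓞 K), 1 ≤ C ∧
    (∀ v, Ideal.span {π v} = v.asIdeal ^ Fintype.card (ClassGroup (𝓞 K))) ∧
    ∀ (v : Pr K) (w : InfinitePlace K),
      w (π v : K) ≤ C * Nv v ^ Fintype.card (ClassGroup (𝓞 K)) := by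
  classical
  obtain ⟨L, hL, hsm⟩ := Pool.Agent.W45.AK.exists_small (K := K)
  set cl := Fintype.card (ClassGroup (𝓞 K)) with hcl
  set d := finrank ℚ K with hd
  have hd0 : 0 < d := finrank_pos
  choose π0 hπ0 using (Pool.Agent.TH876.KR.gens_pi (K := K))
  -- the finite set of ideals
  set T : Finset (Ideal (𝓞 K)) := (Ideal.finite_setOfPred_absNorm_le (S := 𝓞 K) ⌊Real.exp L⌋₊).toFinset
    with hT
  let gen : Ideal (𝓞 K) → 𝓞 K := fun J =>
    if h : ∃ g : 𝓞 K, Ideal.span {g} = J then h.choose else 1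
  have hgen : ∀ b : 𝓞 K, Ideal.span {gen (Ideal.span {b})} = Ideal.span {b} := by
    intro b
    have h : ∃ g : 𝓞 K, Ideal.span {g} = Ideal.span {b} := ⟨b, rfl⟩
    simp only [gen, dif_pos h]
    exact h.choose_spec
  set D : ℝ := ∑ J ∈ T, ∑ w : InfinitePlace K, (w (gen J : K))⁻¹ with hD
  have hDle : ∀ J ∈ T, ∀ w : InfinitePlace K, (w (gen J : K))⁻¹ ≤ D := by
    intro J hJ w
    have h1 : (w (gen J : K))⁻¹ ≤ ∑ w : InfinitePlace K, (w (gen J : K))⁻¹ :=
      Finset.single_le_sum (f := fun w : InfinitePlace K => (w (gen J : K))⁻¹)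
        (fun w _ => inv_nonneg.2 (apply_nonneg w _)) (Finset.mem_univ w)
    exact h1.trans (Finset.single_le_sum
      (f := fun J => ∑ w : InfinitePlace K, (w (gen J : K))⁻¹)
      (fun J _ => Finset.sum_nonneg fun w _ => inv_nonneg.2 (apply_nonneg w _)) hJ)
  have hD0 : 0 ≤ D := Finset.sum_nonneg fun J _ => Finset.sum_nonneg fun w _ =>
    inv_nonneg.2 (apply_nonneg w _)
  have key : ∀ v : Pr K, ∃ π : 𝓞 K, Ideal.span {π} = v.asIdeal ^ cl ∧
      ∀ w : InfinitePlace K, w (π : K) ≤ Real.exp L * Nv v ^ cl * D := by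
    intro v
    have hI : v.asIdeal ^ cl ≠ ⊥ := pow_ne_zero _ v.ne_bot
    obtain ⟨β, hβI, hβ0, hβ⟩ := hsm _ hI
    rw [← hπ0 v, Ideal.mem_span_singleton] at hβI
    obtain ⟨b, hb⟩ := hβI
    have hb0 : b ≠ 0 := by rintro rfl; exact hβ0 (by rw [hb, mul_zero])
    have hπ00 : π0 v ≠ 0 := by intro h; exact hβ0 (by rw [hb, h, zero_mul])
    have hNI : (Ideal.absNorm (v.asIdeal ^ cl) : ℝ) = Nv v ^ cl := by
      rw [map_pow]
      push_cast
      rfl
    have hNv : 1 ≤ Nv v := by linarith [two_le_Nv v]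
    have hNvcl : 1 ≤ Nv v ^ cl := one_le_pow₀ hNv
    have hlogN : 0 ≤ Real.log (Nv v ^ cl) := Real.log_nonneg hNvcl
    -- each conjugate
    have hwβ : ∀ w : InfinitePlace K, (d : ℝ) * Real.log (w (β : K)) ≤ L + Real.log (Nv v ^ cl) := by
      intro w
      rw [← hNI]
      exact hβ w
    have hd1 : (1 : ℝ) ≤ d := by exact_mod_cast hd0
    have hlogw : ∀ w : InfinitePlace K, Real.log (w (β : K)) ≤ L + Real.log (Nv v ^ cl) := by
      intro w
      rcases le_or_gt (Real.log (w (β : K))) 0 with h | h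
      · linarith
      · have h1 := hwβ w
        have h2 : Real.log (w (β : K)) ≤ (d : ℝ) * Real.log (w (β : K)) := by nlinarith
        linarith
    have hwβ' : ∀ w : InfinitePlace K, w (β : K) ≤ Real.exp L * Nv v ^ cl := by
      intro w
      have h1 : 0 < w (β : K) := InfinitePlace.pos_iff.mpr (coe_ne hβ0)
      have h2 := hlogw w
      rw [Real.log_le_iff_le_exp h1, Real.exp_add, Real.exp_log (by positivity)] at h2
      exact h2
    -- the norm of b
    have hsum := sum_log β hβ0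
    have hmult : ∑ w : InfinitePlace K, (w.mult : ℝ) = d := by
      rw [hd, ← InfinitePlace.sum_mult_eq (K := K)]
      push_cast
      rfl
    have hle : Real.log (Ideal.absNorm (Ideal.span {β}) : ℝ) ≤ L + Real.log (Nv v ^ cl) := by
      rw [← hsum]
      have h1 : ∀ w : InfinitePlace K, (w.mult : ℝ) * Real.log (w (β : K)) ≤
          (w.mult : ℝ) / d * (L + Real.log (Nv v ^ cl)) := by
        intro w
        have h2 := mul_le_mul_of_nonneg_left (hwβ w) (by positivity : 0 ≤ (w.mult : ℝ) / d)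
        have h3 : (w.mult : ℝ) / d * ((d : ℝ) * Real.log (w (β : K))) =
            (w.mult : ℝ) * Real.log (w (β : K)) := by
          have : (d : ℝ) ≠ 0 := by positivity
          field_simp
        rw [h3] at h2
        exact h2
      refine (Finset.sum_le_sum fun w _ => h1 w).trans ?_
      rw [← Finset.sum_mul, ← Finset.sum_div, hmult, div_self (by positivity), one_mul]
    have hspan : Ideal.absNorm (Ideal.span {β}) =
        Ideal.absNorm (v.asIdeal ^ cl) * Ideal.absNorm (Ideal.span {b}) := by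
      rw [hb, ← Ideal.span_singleton_mul_span_singleton, hπ0 v, map_mul]
    have hbpos : 0 < (Ideal.absNorm (Ideal.span {b}) : ℝ) := by
      have : Ideal.absNorm (Ideal.span {b}) ≠ 0 := by
        rw [Ne, Ideal.absNorm_eq_zero_iff, Ideal.span_singleton_eq_bot]
        exact hb0
      exact_mod_cast Nat.pos_of_ne_zero this
    have hbT : Ideal.span {b} ∈ T := by
      rw [hT, Set.Finite.mem_toFinset, Set.mem_ofPred_eq]
      apply Nat.le_floor
      rw [hspan] at hle
      push_cast at hle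
      rw [hNI, Real.log_mul (by positivity) hbpos.ne'] at hle
      rw [← Real.log_le_iff_le_exp hbpos]
      linarith
    have hg := hgen b
    obtain ⟨u, hu⟩ := Ideal.span_singleton_eq_span_singleton.1 hg
    refine ⟨π0 v * u, ?_, fun w => ?_⟩
    · rw [← hπ0 v]
      exact Ideal.span_singleton_mul_right_unit u.isUnit _
    · have h0 : β = (π0 v * u) * gen (Ideal.span {b}) := by
        calc β = π0 v * b := hb
          _ = π0 v * (gen (Ideal.span {b}) * u) := by rw [hu]
          _ = _ := by ring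
      have h1 : (β : K) = ((π0 v * u : 𝓞 K) : K) * (gen (Ideal.span {b}) : K) := by
        rw [← map_mul, ← h0]
      have hg0 : gen (Ideal.span {b}) ≠ 0 := by
        intro h0
        rw [h0, zero_mul] at hu
        exact hb0 hu.symm
      have hwg : 0 < w (gen (Ideal.span {b}) : K) := InfinitePlace.pos_iff.mpr (coe_ne hg0)
      have h2 : w ((π0 v * u : 𝓞 K) : K) = w (β : K) * (w (gen (Ideal.span {b}) : K))⁻¹ := by
        rw [h1, map_mul, mul_assoc, mul_inv_cancel₀ hwg.ne', mul_one]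
      rw [h2]
      exact mul_le_mul (hwβ' w) (hDle _ hbT w) (inv_nonneg.2 hwg.le) (by positivity)
  choose π hπ1 hπ2 using key
  refine ⟨Real.exp L * D + 1, π, by linarith [mul_nonneg (Real.exp_pos L).le hD0], hπ1, fun v w => ?_⟩
  have hNv : 1 ≤ Nv v := by linarith [two_le_Nv v]
  have hNvcl : 1 ≤ Nv v ^ cl := one_le_pow₀ hNv
  have h1 := hπ2 v w
  calc w (π v : K) ≤ Real.exp L * Nv v ^ cl * D := h1
    _ = (Real.exp L * D) * Nv v ^ cl := by ring
    _ ≤ (Real.exp L * D + 1) * Nv v ^ cl := by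
        apply mul_le_mul_of_nonneg_right _ (by positivity)
        linarith

/-- bounds at infinity of the generators -/
theorem genB {C : ℝ} (hC : 1 ≤ C) {π : Pr K → 𝓞 K}
    (h1 : ∀ v, Ideal.span {π v} = v.asIdeal ^ Fintype.card (ClassGroup (𝓞 K)))
    (h2 : ∀ (v : Pr K) (w : InfinitePlace K),
      w (π v : K) ≤ C * Nv v ^ Fintype.card (ClassGroup (𝓞 K))) (v : Pr K) (w : InfinitePlace K) :
    |Real.log (w (π v : K))| ≤ (finrank ℚ K : ℝ) *
      (Real.log C / Real.log 2 + Fintype.card (ClassGroup (𝓞 K))) * Real.log (Nv v) := by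
  set cl := Fintype.card (ClassGroup (𝓞 K)) with hcl
  set d := finrank ℚ K with hd
  have hd0 : 0 < d := finrank_pos
  have hd1 : (1 : ℝ) ≤ d := by exact_mod_cast hd0
  have hl2 : 0 < Real.log 2 := Real.log_pos (by norm_num)
  have hlC : 0 ≤ Real.log C := Real.log_nonneg hC
  have hNv2 := two_le_Nv v
  have hlN : Real.log 2 ≤ Real.log (Nv v) := Real.log_le_log (by norm_num) hNv2
  have hπ0 : π v ≠ 0 := by
    intro h
    have := h1 v
    rw [h, Ideal.span_singleton_eq_bot.2 rfl] at this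
    exact pow_ne_zero _ v.ne_bot this.symm
  have hmult : ∑ w : InfinitePlace K, (w.mult : ℝ) = d := by
    rw [hd, ← InfinitePlace.sum_mult_eq (K := K)]
    push_cast
    rfl
  set R : ℝ := Real.log C + cl * Real.log (Nv v) with hR
  have hR0 : 0 ≤ R := add_nonneg hlC (mul_nonneg (Nat.cast_nonneg _) (hl2.le.trans hlN))
  have hup : ∀ w : InfinitePlace K, Real.log (w (π v : K)) ≤ R := by
    intro w
    have h3 := Real.log_le_log (InfinitePlace.pos_iff.mpr (coe_ne hπ0)) (h2 v w)
    rw [Real.log_mul (by linarith) (pow_pos (by linarith) _).ne', Real.log_pow] at h3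
    exact h3
  have hsum := sum_log (π v) hπ0
  have hnorm : 0 ≤ Real.log (Ideal.absNorm (Ideal.span {π v}) : ℝ) := by
    exact Real.log_natCast_nonneg _
  have hRle : R ≤ (Real.log C / Real.log 2 + cl) * Real.log (Nv v) := by
    rw [hR, add_mul]
    have : Real.log C ≤ Real.log C / Real.log 2 * Real.log (Nv v) := by
      calc Real.log C = Real.log C / Real.log 2 * Real.log 2 := by field_simp
        _ ≤ _ := by gcongr
    linarith
  have hdR : R ≤ d * R := by nlinarith
  have hlow : -(d * R) ≤ (w.mult : ℝ) * Real.log (w (π v : K)) := by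
    classical
    rw [← Finset.add_sum_erase _ _ (Finset.mem_univ w)] at hsum
    have h3 : ∑ w' ∈ Finset.univ.erase w, (w'.mult : ℝ) * Real.log (w' (π v : K)) ≤ d * R := by
      have h4 : ∑ w' ∈ Finset.univ.erase w, (w'.mult : ℝ) * Real.log (w' (π v : K)) ≤
          ∑ w' ∈ Finset.univ.erase w, (w'.mult : ℝ) * R :=
        Finset.sum_le_sum fun w' _ => mul_le_mul_of_nonneg_left (hup w') (by positivity)
      refine h4.trans ?_
      rw [← Finset.sum_mul]
      apply mul_le_mul_of_nonneg_right _ hR0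
      rw [← hmult]
      exact Finset.sum_le_sum_of_subset_of_nonneg (Finset.erase_subset _ _)
        (fun w _ _ => by positivity)
    linarith
  have hm1 : (1 : ℝ) ≤ w.mult := by exact_mod_cast InfinitePlace.mult_pos
  have h5 : |Real.log (w (π v : K))| ≤ d * R := by
    rw [abs_le]
    constructor
    · rcases le_or_gt 0 (Real.log (w (π v : K))) with h | h
      · have : 0 ≤ d * R := by positivity
        linarith
      · nlinarith
    · exact (hup w).trans hdR
  refine h5.trans ?_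
  rw [mul_assoc]
  exact mul_le_mul_of_nonneg_left hRle (by positivity)

variable (K) in
/-- bounded exponents of a unit -/
theorem unitC : ∃ C : ℝ, 0 ≤ C ∧ ∀ (u : (𝓞 K)ˣ) (R : ℝ), 0 ≤ R →
    (∀ w : InfinitePlace K, |Real.log (w ((u : 𝓞 K) : K))| ≤ R) →
    ∃ e : Fin (Units.rank K) → ℤ, (∀ j, |(e j : ℝ)| ≤ C * R) ∧
      ((u : 𝓞 K) : K) ^ (Units.torsionOrder K) =
        ∏ j, (((Units.fundSystem K j : (𝓞 K)ˣ) : 𝓞 K) : K) ^ (e j * Units.torsionOrder K) := by
  classical
  set B := (Units.basisUnitLattice K).ofZLatticeBasis ℝ (Units.unitLattice K) with hB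
  let φ : Fin (Units.rank K) → (Units.dirichletUnitTheorem.logSpace K →L[ℝ] ℝ) := fun j =>
    LinearMap.toContinuousLinearMap (B.coord j)
  refine ⟨2 * ∑ j, ‖φ j‖, by positivity, fun u R hR hu => ?_⟩
  obtain ⟨⟨ζ, e⟩, h, -⟩ := Units.exist_unique_eq_mul_prod K u
  simp only at h
  refine ⟨e, fun j => ?_, ?_⟩
  · have hlog : Units.logEmbedding K (Additive.ofMul u) = ∑ j, (e j : ℝ) • B j := by
      rw [h, ofMul_mul, map_add]
      have h1 : Units.logEmbedding K (Additive.ofMul (ζ : (𝓞 K)ˣ)) = 0 :=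
        Units.dirichletUnitTheorem.logEmbedding_eq_zero_iff.2 ζ.2
      rw [h1, zero_add, ofMul_prod, map_sum]
      refine Finset.sum_congr rfl fun j _ => ?_
      rw [ofMul_zpow, map_zsmul, Units.logEmbedding_fundSystem, hB,
        Module.Basis.ofZLatticeBasis_apply, Int.cast_smul_eq_zsmul]
    have hej : (e j : ℝ) = φ j (Units.logEmbedding K (Additive.ofMul u)) := by
      change _ = B.coord j _
      rw [hlog, map_sum, Finset.sum_eq_single j]
      · rw [map_smul]
        simp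
      · intro i _ hij
        rw [map_smul]
        simp [hij]
      · intro h
        exact absurd (Finset.mem_univ j) h
    have hnorm : ‖Units.logEmbedding K (Additive.ofMul u)‖ ≤ 2 * R := by
      rw [pi_norm_le_iff_of_nonneg (by positivity)]
      intro w
      rw [Units.dirichletUnitTheorem.logEmbedding_component, norm_mul, Real.norm_eq_abs,
        Real.norm_eq_abs]
      have h2 : |((w.val.mult : ℕ) : ℝ)| ≤ 2 := by
        rw [abs_of_nonneg (by positivity)]
        have : w.val.mult ≤ 2 := by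
          unfold InfinitePlace.mult
          split_ifs <;> norm_num
        exact_mod_cast this
      exact mul_le_mul h2 (hu w.val) (abs_nonneg _) (by norm_num)
    rw [hej]
    have h3 := (φ j).le_opNorm (Units.logEmbedding K (Additive.ofMul u))
    rw [Real.norm_eq_abs] at h3
    have h4 : ‖φ j‖ ≤ ∑ j, ‖φ j‖ :=
      Finset.single_le_sum (f := fun j => ‖φ j‖) (fun _ _ => norm_nonneg _) (Finset.mem_univ j)
    calc |φ j (Units.logEmbedding K (Additive.ofMul u))|
        ≤ ‖φ j‖ * ‖Units.logEmbedding K (Additive.ofMul u)‖ := h3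
      _ ≤ (∑ j, ‖φ j‖) * (2 * R) := by
          apply mul_le_mul h4 hnorm (norm_nonneg _) (by positivity)
      _ = _ := by ring
  · have hζ : (ζ : (𝓞 K)ˣ) ^ (Units.torsionOrder K) = 1 := by
      have h1 : (ζ : (𝓞 K)ˣ) ∈ rootsOfUnity (Units.torsionOrder K) (𝓞 K) := by
        rw [Units.rootsOfUnity_eq_torsion]
        exact ζ.2
      rwa [mem_rootsOfUnity] at h1
    have h2 : u ^ (Units.torsionOrder K) =
        ∏ j, (Units.fundSystem K j) ^ (e j * Units.torsionOrder K) := by
      rw [h, mul_pow, hζ, one_mul, ← Finset.prod_pow]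
      refine Finset.prod_congr rfl fun j _ => ?_
      rw [zpow_mul, zpow_natCast]
    have h3 := congrArg (fun x : (𝓞 K)ˣ => (Units.map (algebraMap (𝓞 K) K : 𝓞 K →* K) x : Kˣ)) h2
    simp only [map_pow, map_prod, map_zpow] at h3
    have h4 := congrArg (fun x : Kˣ => (x : K)) h3
    simp only [Units.val_pow_eq_pow_val, Units.coe_prod, Units.val_zpow_eq_zpow_val] at h4
    exact h4

variable (K) in
/-- the fundamental units are independent -/
theorem indep (b : Fin (Units.rank K) → ℤ)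
    (h : ∏ j, (((Units.fundSystem K j : (𝓞 K)ˣ) : 𝓞 K) : K) ^ (b j) = 1) : b = 0 := by
  have h1 : ∏ j, (Units.fundSystem K j) ^ (b j) = 1 := by
    have hinj : Function.Injective (Units.map (algebraMap (𝓞 K) K : 𝓞 K →* K)) :=
      Units.map_injective (FaithfulSMul.algebraMap_injective _ _)
    apply hinj
    rw [map_prod, map_one]
    ext
    simp only [map_zpow, Units.coe_prod, Units.val_zpow_eq_zpow_val, Units.val_one]
    exact h
  obtain ⟨ze, -, huniq⟩ := Units.exist_unique_eq_mul_prod K (1 : (𝓞 K)ˣ)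
  have h2 := huniq (1, b) (by simp [h1])
  have h3 := huniq (1, 0) (by simp)
  have h4 := h2.trans h3.symm
  exact congrArg Prod.snd h4

/-- the house as a maximum over the infinite places -/
theorem house_le {x : K} {M : ℝ} (h : ∀ w : InfinitePlace K, w x ≤ M) : house x ≤ M := by
  have hM : 0 ≤ M := by
    obtain ⟨w⟩ := (inferInstance : Nonempty (InfinitePlace K))
    exact (apply_nonneg w x).trans (h w)
  rw [house_eq_sup']
  have h1 : (univ.sup' univ_nonempty (fun φ : K →+* ℂ ↦ ‖φ x‖₊)) ≤ (⟨M, hM⟩ : NNReal) := by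
    refine Finset.sup'_le _ _ fun φ _ => ?_
    have h2 := h (InfinitePlace.mk φ)
    rw [InfinitePlace.apply] at h2
    exact h2
  exact h1

theorem final_ineq {C2 C3 Cε C0 H x : ℝ} (t : ℕ) (h2 : 0 ≤ C2) (h3 : 0 ≤ C3) (hε : 0 ≤ Cε) (h0 : 1 ≤ C0)
    (hH : 0 ≤ H) (hx : x ≤ C2 * (C3 * H)) :
    x * t ≤ (1 + Cε + C0 ^ t + t * (C2 * C3)) * (H + 1) := by
  have h7 : 0 ≤ C0 ^ t := by positivity
  have h8 : 0 ≤ (t : ℝ) * (C2 * C3) := by positivity
  calc x * t ≤ (C2 * (C3 * H)) * t := mul_le_mul_of_nonneg_right hx (by positivity)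
    _ = (t * (C2 * C3)) * H := by ring
    _ ≤ (1 + Cε + C0 ^ t + t * (C2 * C3)) * (H + 1) := by
        apply mul_le_mul _ (by linarith) hH (by linarith)
        linarith

end GC

open GC

theorem gensC (K : Type) [Field K] [NumberField K] :
    ∃ (h r : ℕ) (C : ℝ) (ε : Fin r → 𝓞 K) (g : Pr K → 𝓞 K), 1 ≤ h ∧ 1 ≤ C ∧
      (∀ j, IsUnit (ε j)) ∧ (∀ v : Pr K, fv v (g v : K) = (Nv v)⁻¹ ^ h) ∧
      (∀ u v : Pr K, u ≠ v → fv u (g v : K) = 1) ∧
      (∀ j, house (ε j : K) ≤ C) ∧ (∀ v : Pr K, house (g v : K) ≤ C * Nv v ^ h) ∧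
      (∀ b : Fin r → ℤ, ∏ j, (ε j : K) ^ (b j) = 1 → b = 0) ∧
      ∀ (S : Finset (Pr K)) (a : Pr K → ℤ) (y : K) (H : ℝ), y ≠ 0 →
        (∀ v, v ∉ S → fv v y = 1) → (∀ v ∈ S, fv v y = (Nv v)⁻¹ ^ (a v)) →
        (∀ w : InfinitePlace K, |Real.log (w y)| ≤ H) →
        ∑ v ∈ S, |(a v : ℝ)| * Real.log (Nv v) ≤ H →
        ∃ b : Fin r → ℤ, (∀ j, |(b j : ℝ)| ≤ C * (H + 1)) ∧
          y ^ h = (∏ j, (ε j : K) ^ (b j)) * ∏ v ∈ S, (g v : K) ^ (a v) := by
  classical
  obtain ⟨C0, π, hC0, hπ, hπw⟩ := genA K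
  obtain ⟨C2, hC2, hunit⟩ := unitC K
  have hB0 : ∀ (v : Pr K) (w : InfinitePlace K), |Real.log (w (π v : K))| ≤
      (finrank ℚ K : ℝ) * (Real.log C0 / Real.log 2 + Fintype.card (ClassGroup (𝓞 K))) *
        Real.log (Nv v) := fun v w => genB hC0 hπ hπw v w
  have hcl0 : 1 ≤ Fintype.card (ClassGroup (𝓞 K)) := Fintype.card_pos
  have ht0 : 1 ≤ Units.torsionOrder K := Units.torsionOrder_pos K
  generalize Fintype.card (ClassGroup (𝓞 K)) = cl at hπ hπw hB0 hcl0
  generalize Units.torsionOrder K = t at hunit ht0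
  have hs : ∀ v, fv v (π v : K) = (Nv v)⁻¹ ^ cl := fun v =>
    Pool.Agent.TH876.KR.gens_pi_self v (hπ v)
  have hn : ∀ u v : Pr K, u ≠ v → fv u (π v : K) = 1 := fun u v h =>
    Pool.Agent.TH876.KR.gens_pi_ne h (hπ v)
  have hπ0 : ∀ v, (π v : K) ≠ 0 := by
    intro v h0
    have h1 := hs v
    rw [h0, map_zero] at h1
    have h2 : 0 < (Nv v)⁻¹ ^ cl := pow_pos (inv_pos.2 (Nv_pos v)) _
    rw [← h1] at h2
    exact lt_irrefl _ h2
  have hpow : ∀ v, ((π v ^ t : 𝓞 K) : K) = (π v : K) ^ t := fun v => map_pow (algebraMap (𝓞 K) K) _ _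
  set C1 : ℝ := (finrank ℚ K : ℝ) * (Real.log C0 / Real.log 2 + cl) with hC1
  have hl2 : 0 < Real.log 2 := Real.log_pos (by norm_num)
  have hC10 : 0 ≤ C1 := by
    have := Real.log_nonneg hC0
    positivity
  have hB : ∀ (v : Pr K) (w : InfinitePlace K), |Real.log (w (π v : K))| ≤ C1 * Real.log (Nv v) := hB0
  set C3 : ℝ := cl + C1 with hC3
  have hC30 : 0 ≤ C3 := by positivity
  set Cε : ℝ := ∑ j : Fin (Units.rank K),
    house (((Units.fundSystem K j : (𝓞 K)ˣ) : 𝓞 K) : K) with hCε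
  have hCε0 : 0 ≤ Cε := Finset.sum_nonneg fun j _ => house_nonneg _
  refine ⟨cl * t, Units.rank K, 1 + Cε + C0 ^ t + t * (C2 * C3), fun j => (Units.fundSystem K j : 𝓞 K),
    fun v => π v ^ t, Nat.mul_pos hcl0 ht0, ?_, fun j => (Units.fundSystem K j).isUnit, ?_, ?_, ?_,
    ?_, fun b hb => indep K b hb, ?_⟩
  · have : 0 ≤ C0 ^ t + t * (C2 * C3) := by positivity
    linarith
  · intro v
    rw [hpow, map_pow, hs, pow_mul]
  · intro u v huv
    rw [hpow, map_pow, hn u v huv, one_pow]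
  · intro j
    have h1 : house (((Units.fundSystem K j : (𝓞 K)ˣ) : 𝓞 K) : K) ≤ Cε :=
      Finset.single_le_sum (f := fun j : Fin (Units.rank K) =>
        house (((Units.fundSystem K j : (𝓞 K)ˣ) : 𝓞 K) : K)) (fun _ _ => house_nonneg _)
        (Finset.mem_univ j)
    have : 0 ≤ C0 ^ t + t * (C2 * C3) := by positivity
    linarith
  · intro v
    rw [hpow]
    have hNv : 0 < Nv v := Nv_pos v
    calc house ((π v : K) ^ t) ≤ house (π v : K) ^ t := house_pow_le _ _
      _ ≤ (C0 * Nv v ^ cl) ^ t :=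
          pow_le_pow_left₀ (house_nonneg _) (house_le fun w => hπw v w) _
      _ = C0 ^ t * Nv v ^ (cl * t) := by rw [mul_pow, ← pow_mul]
      _ ≤ (1 + Cε + C0 ^ t + t * (C2 * C3)) * Nv v ^ (cl * t) := by
          apply mul_le_mul_of_nonneg_right _ (by positivity)
          have : 0 ≤ t * (C2 * C3) := by positivity
          linarith
  · intro S a y H hy h1 h3 hyw hS
    have hH0 : 0 ≤ H := le_trans (Finset.sum_nonneg fun v _ =>
      mul_nonneg (abs_nonneg _) (Real.log_nonneg (by linarith [two_le_Nv v]))) hS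
    have hD : ∏ v ∈ S, (π v : K) ^ (a v) ≠ 0 :=
      Finset.prod_ne_zero_iff.2 fun v _ => zpow_ne_zero _ (hπ0 v)
    have hz0 : y ^ cl / (∏ v ∈ S, (π v : K) ^ (a v)) ≠ 0 := div_ne_zero (pow_ne_zero _ hy) hD
    obtain ⟨u, hu⟩ := Pool.Agent.TH876.KR.gens_unit hz0 (fun v => by
      have hy0 : fv v y ≠ 0 := ((fv v).pos hy).ne'
      rw [map_div₀, map_pow, map_prod, div_eq_one_iff_eq
        (Finset.prod_ne_zero_iff.2 fun w _ => (fv v).ne_zero (zpow_ne_zero _ (hπ0 w)))]
      have h4 : ∀ w, fv v ((π w : K) ^ (a w)) = fv v (π w : K) ^ (a w) := fun w => map_zpow₀ _ _ _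
      simp only [h4]
      by_cases hvS : v ∈ S
      · rw [Finset.prod_eq_single_of_mem v hvS, hs, h3 v hvS]
        · rw [← zpow_natCast, ← zpow_natCast, ← zpow_mul, ← zpow_mul, mul_comm]
        · intro w _ hwv
          rw [hn v w (Ne.symm hwv), one_zpow]
      · rw [h1 v hvS, one_pow, Finset.prod_eq_one]
        intro w hw
        have : v ≠ w := by rintro rfl; exact hvS hw
        rw [hn v w this, one_zpow])
    have hulog : ∀ w : InfinitePlace K, |Real.log (w ((u : 𝓞 K) : K))| ≤ C3 * H := by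
      intro w
      have hwy : w y ≠ 0 := (InfinitePlace.pos_iff.mpr hy).ne'
      have hwπ : ∀ v, w (π v : K) ≠ 0 := fun v => (InfinitePlace.pos_iff.mpr (hπ0 v)).ne'
      rw [hu, map_div₀, map_pow, map_prod]
      have h4 : ∀ v, w ((π v : K) ^ (a v)) = w (π v : K) ^ (a v) := fun v => map_zpow₀ _ _ _
      simp only [h4]
      rw [Real.log_div (pow_ne_zero _ hwy)
        (Finset.prod_ne_zero_iff.2 fun v _ => zpow_ne_zero _ (hwπ v)), Real.log_pow,
        Real.log_prod (fun v _ => zpow_ne_zero _ (hwπ v))]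
      simp only [Real.log_zpow]
      have h5 : |∑ v ∈ S, (a v : ℝ) * Real.log (w (π v : K))| ≤ C1 * H := by
        refine (Finset.abs_sum_le_sum_abs _ _).trans ?_
        calc ∑ v ∈ S, |(a v : ℝ) * Real.log (w (π v : K))|
            ≤ ∑ v ∈ S, C1 * (|(a v : ℝ)| * Real.log (Nv v)) := by
              refine Finset.sum_le_sum fun v _ => ?_
              rw [abs_mul]
              have := mul_le_mul_of_nonneg_left (hB v w) (abs_nonneg (a v : ℝ))
              linarith
          _ = C1 * ∑ v ∈ S, |(a v : ℝ)| * Real.log (Nv v) := by rw [Finset.mul_sum]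
          _ ≤ C1 * H := mul_le_mul_of_nonneg_left hS hC10
      have h6 : |(cl : ℝ) * Real.log (w y)| ≤ cl * H := by
        rw [abs_mul, Nat.abs_cast]
        exact mul_le_mul_of_nonneg_left (hyw w) (by positivity)
      calc |(cl : ℝ) * Real.log (w y) - ∑ v ∈ S, (a v : ℝ) * Real.log (w (π v : K))|
          ≤ |(cl : ℝ) * Real.log (w y)| + |∑ v ∈ S, (a v : ℝ) * Real.log (w (π v : K))| :=
            abs_sub _ _
        _ ≤ cl * H + C1 * H := add_le_add h6 h5
        _ = C3 * H := by rw [hC3]; ring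
    obtain ⟨e, he1, he2⟩ := hunit u (C3 * H) (by positivity) hulog
    refine ⟨fun j => e j * t, fun j => ?_, ?_⟩
    · push_cast
      rw [abs_mul, Nat.abs_cast]
      exact final_ineq t hC2 hC30 hCε0 hC0 hH0 (he1 j)
    · have h5 : ∀ v, ((π v ^ t : 𝓞 K) : K) ^ (a v) = ((π v : K) ^ (a v)) ^ t := by
        intro v
        rw [hpow, ← zpow_natCast, ← zpow_natCast, ← zpow_mul, ← zpow_mul, mul_comm]
      have h7 : ∏ v ∈ S, ((π v ^ t : 𝓞 K) : K) ^ (a v) = (∏ v ∈ S, (π v : K) ^ (a v)) ^ t := by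
        rw [← Finset.prod_pow]
        exact Finset.prod_congr rfl fun v _ => h5 v
      change y ^ (cl * t) = (∏ j, (((Units.fundSystem K j : (𝓞 K)ˣ) : 𝓞 K) : K) ^ (e j * (t : ℤ))) *
        ∏ v ∈ S, ((π v ^ t : 𝓞 K) : K) ^ (a v)
      rw [h7, ← he2, hu, pow_mul, div_pow, div_mul_cancel₀ _ (pow_ne_zero _ hD)]

end Pool.Agent.Y496
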