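import Pool.Agent.Y19.QT.Forms
import Pool.Agent.W97.TW.Lfun
import Pool.Agent.H491R3.J.Defs

set_option autoImplicit false

/-! # QT-T10a: functional equation of the theta function of a quadratic twist -/

namespace Pool.Agent.Y496.QT10a

open Complex UpperHalfPlane MatrixGroups CongruenceSubgroup
open Pool.Agent.H306R2.RZ (js Gk)
open Pool.Agent.Y19.QT
open Pool.Agent.W97.TW (tau TS A)
open Pool.Agent.H491R3.J (jchi)

noncomputable section

variable {N : ℕ} (f : CuspForm (Gamma0 N : Subgroup (GL (Fin 2) ℝ)) 2)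

theorem jchi_natCast (m n : ℕ) [NeZero m] :
    jchi m (n : ZMod m) = ((jacobiSym (n : ℤ) m : ℤ) : ℂ) := by
  change ((jacobiSym (((n : ZMod m).val : ℕ) : ℤ) m : ℤ) : ℂ) = _
  rw [ZMod.val_natCast, Pool.Agent.H491R3.J.jac_periodic]

theorem jchi_sq (m : ℕ) [NeZero m] (hm : Odd m) (hsq : Squarefree m) :
    (jchi m) ^ 2 = 1 ∧ (jchi m).IsPrimitive := by
  rcases Nat.lt_or_ge 1 m with h | h
  · have h1 := Pool.Agent.H491R3.J.chi_inv ⟨m, hm, hsq, h⟩
    have h2 := Pool.Agent.H491R3.J.chi_primitive ⟨m, hm, hsq, h⟩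
    refine ⟨?_, h2⟩
    change (jchi m)⁻¹ = jchi m at h1
    rw [inv_eq_iff_mul_eq_one] at h1
    rw [sq, h1]
  · have hm1 : m = 1 := by
      have := NeZero.pos m
      omega
    subst hm1
    have e : jchi 1 = 1 := by
      ext a
      have : a = 1 := Subsingleton.elim _ _
      rw [this]
      simp
    rw [e]
    exact ⟨one_pow 2, DirichletCharacter.isPrimitive_one_level_one⟩

theorem hasSum_TS [NeZero N] {m : ℕ} [NeZero m] (ψ : DirichletCharacter ℂ m) (hψ : ψ.IsPrimitive)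
    (hsq : ψ ^ 2 = 1) {τ : ℂ} (hτ : 0 < τ.im) :
    HasSum (fun n : ℕ => tau ψ * (A f n * ψ n * cexp (2 * Real.pi * Complex.I * n * τ))) (TS f ψ τ) := by
  unfold TS
  have h1 : HasSum (fun n : ℕ => ∑ a : ZMod m, ψ a * (A f n *
      Complex.exp (2 * Real.pi * Complex.I * n * (τ + ((a.val : ℤ) : ℂ) / m))))
      (∑ a : ZMod m, ψ a * f (ofComplex (τ + ((a.val : ℤ) : ℂ) / m))) :=
    hasSum_sum fun a _ =>
      (Pool.Agent.W97.TW.hasSum_f f (Pool.Agent.W97.TW.im_add_div hτ _ m)).mul_left _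
  refine h1.congr_fun fun n => ?_
  have h2 : ∀ a : ZMod m, ψ a * (A f n *
      Complex.exp (2 * Real.pi * Complex.I * n * (τ + ((a.val : ℤ) : ℂ) / m))) =
      A f n * cexp (2 * Real.pi * Complex.I * n * τ) *
        (ψ a * Complex.exp (2 * Real.pi * Complex.I * n * (((a.val : ℤ) : ℂ) / m))) := by
    intro a
    have h3 : Complex.exp (2 * Real.pi * Complex.I * n * (τ + ((a.val : ℤ) : ℂ) / m)) =
        cexp (2 * Real.pi * Complex.I * n * τ) *
        Complex.exp (2 * Real.pi * Complex.I * n * (((a.val : ℤ) : ℂ) / m)) := by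
      rw [← Complex.exp_add]
      congr 1
      ring
    rw [h3]
    ring
  simp_rw [h2]
  rw [← Finset.mul_sum, Pool.Agent.W97.TW.sum_char ψ hψ hsq]
  ring

/-- T10a: functional equation of the theta function of a quadratic twist, conductor prime to `N` -/
theorem T10a (a b : ℤ) (N : ℕ) (f : CuspForm (Gamma0 N : Subgroup (GL (Fin 2) ℝ)) 2)
    (hf : IsFormOf a b N f) (m : ℕ) (hm : Odd m) (hsq : Squarefree m) (hco : m.Coprime N) :
    ∃ w : ℝ, w ^ 2 = 1 ∧ ∀ z : ℂ, 0 < z.re →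
      ∑' n : ℕ, coef f n * js n m * cexp (-(2 * Real.pi * n * (1 / z) / (m * Real.sqrt N : ℝ))) =
        w * z ^ 2 *
          ∑' n : ℕ, coef f n * js n m * cexp (-(2 * Real.pi * n * z / (m * Real.sqrt N : ℝ))) := by
  have hN : 0 < N := hf.pos
  have : NeZero N := ⟨hN.ne'⟩
  have hm0 : 0 < m := hm.pos
  have : NeZero m := ⟨hm0.ne'⟩
  obtain ⟨w, hw, hfr⟩ := hf.fricke
  obtain ⟨hψ2, hψ⟩ := jchi_sq m hm hsq
  set ψ := jchi m with hψdef
  -- the Fricke involution
  have hNC : (N : ℂ) ≠ 0 := by exact_mod_cast hN.ne'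
  have hmC : (m : ℂ) ≠ 0 := by exact_mod_cast hm0.ne'
  have hW : ∀ z : ℍ, f (ofComplex (-1 / ((N : ℂ) * z))) = (-(w : ℂ) * N) * (z : ℂ) ^ (2 : ℤ) * f z := by
    intro z
    have hz : (z : ℂ) ≠ 0 := z.ne_zero
    have him : 0 < (-1 / ((N : ℂ) * z)).im := by
      rw [neg_div, Complex.neg_im, one_div, Complex.inv_im, neg_div, neg_neg]
      have h1 : 0 < ((N : ℂ) * z).im := by
        rw [Complex.mul_im]
        simp only [Complex.natCast_re, Complex.natCast_im, zero_mul, add_zero]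
        have : (0 : ℝ) < N := by exact_mod_cast hN
        have := z.im_pos
        have h3 : (z : ℂ).im = z.im := rfl
        rw [h3]
        positivity
      exact div_pos h1 (Complex.normSq_pos.2 (fun h => by rw [h] at h1; simp at h1))
    rw [ofComplex_apply_of_im_pos him, hfr z ⟨_, him⟩ ?_]
    · rw [zpow_ofNat]
    · change (-1 / ((N : ℂ) * z)) * ((N : ℂ) * z) = -1
      field_simp
  -- the value at `-N`
  have hu : IsUnit (-(N : ZMod m)) := ((ZMod.isUnit_iff_coprime _ _).2 hco.symm).neg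
  obtain ⟨v, hv⟩ : ∃ v : ℝ, ψ (-(N : ZMod m)) = (v : ℂ) :=
    ⟨((jacobiSym (((-(N : ZMod m)).val : ℕ) : ℤ) m : ℤ) : ℝ), by
      change ((jacobiSym (((-(N : ZMod m)).val : ℕ) : ℤ) m : ℤ) : ℂ) = _
      push_cast
      rfl⟩
  have hv2 : v ^ 2 = 1 := by
    obtain ⟨u, hu⟩ := hu
    have h1 := congrArg (fun χ : DirichletCharacter ℂ m => χ (u : ZMod m)) hψ2
    rw [MulChar.one_apply_coe] at h1
    rw [MulChar.pow_apply_coe, hu, hv] at h1
    exact_mod_cast h1
  have hτ0 := Pool.Agent.W97.TW.tau_ne_zero ψ hψ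
  set q : ℝ := m * Real.sqrt N with hq
  have hqpos : 0 < q := by
    have : 0 < Real.sqrt N := Real.sqrt_pos.2 (by exact_mod_cast hN)
    have : (0 : ℝ) < m := by exact_mod_cast hm0
    positivity
  have hqC : (q : ℂ) ≠ 0 := by exact_mod_cast hqpos.ne'
  have hq2 : (q : ℂ) ^ 2 = (m : ℂ) ^ 2 * N := by
    have : q ^ 2 = (m : ℝ) ^ 2 * N := by
      rw [hq, mul_pow, Real.sq_sqrt (Nat.cast_nonneg N)]
    exact_mod_cast this
  have him0 : ∀ z : ℂ, 0 < z.re → 0 < (Complex.I * z / q).im := by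
    intro z hz
    rw [Complex.div_ofReal_im, Complex.I_mul_im]
    positivity
  have hterm : ∀ z : ℂ, 0 < z.re →
      TS f ψ (Complex.I * z / q) = tau ψ *
        ∑' n : ℕ, coef f n * js n m * cexp (-(2 * Real.pi * n * z / (q : ℝ))) := by
    intro z hz
    have him : 0 < (Complex.I * z / q).im := him0 z hz
    rw [← (hasSum_TS f ψ hψ hψ2 him).tsum_eq, tsum_mul_left]
    congr 1
    refine tsum_congr fun n => ?_
    rw [hψdef, jchi_natCast]
    have e1 : coef f n = A f n := rfl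
    have e2 : ((js n m : ℝ) : ℂ) = ((jacobiSym (n : ℤ) m : ℤ) : ℂ) := by
      unfold js; push_cast; rfl
    rw [e1, e2]
    congr 2
    have : Complex.I * Complex.I = -1 := I_mul_I
    linear_combination (2 * Real.pi * n * z / q) * this
  refine ⟨v * w, ?_, fun z hz => ?_⟩
  · rw [mul_pow, hv2]
    rcases hw with h | h <;> rw [h] <;> norm_num
  · have hz0 : z ≠ 0 := fun h => by rw [h] at hz; simp at hz
    have hz' : 0 < (1 / z).re := by
      rw [one_div, Complex.inv_re]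
      exact div_pos hz (Complex.normSq_pos.2 hz0)
    have him : 0 < (Complex.I * z / q).im := him0 z hz
    have h1 := Pool.Agent.W97.TW.TS_one f hW hN hco.symm ψ hψ2 him
    have e : -1 / ((N : ℂ) * (m : ℂ) ^ 2 * (Complex.I * z / q)) = Complex.I * (1 / z) / q := by
      rw [show (N : ℂ) * (m : ℂ) ^ 2 = (q : ℂ) ^ 2 by rw [hq2]; ring]
      field_simp
      exact Complex.I_sq.symm
    rw [e, hterm z hz, hterm _ hz', hv] at h1
    have h2 : ((m : ℂ) * (Complex.I * z / q)) ^ (2 : ℤ) = -(z ^ 2 / N) := by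
      rw [zpow_ofNat, mul_pow, div_pow, mul_pow, I_sq, hq2]
      field_simp
    rw [h2] at h1
    apply mul_left_cancel₀ hτ0
    rw [h1]
    push_cast
    field_simp

end

end Pool.Agent.Y496.QT10a
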