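import Pool.Agent.Y19.QT.Defs

set_option autoImplicit false

/-! # QT-T15: mean value of `2^ω(d)` over squarefree `d` -/

namespace Pool.Agent.Y496.QT

open Pool.Agent.Y19.QT

theorem two_pow_omega_le {n : ℕ} (hn : n ≠ 0) : 2 ^ n.primeFactors.card ≤ n.divisors.card := by
  rw [← Finset.card_powerset]
  refine Finset.card_le_card_of_injOn (fun S => ∏ p ∈ S, p) ?_ ?_
  · intro S hS
    have hS' : S ⊆ n.primeFactors := by simpa using hS
    simp only [Finset.mem_coe, Nat.mem_divisors]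
    exact ⟨(Finset.prod_dvd_prod_of_subset _ _ _ hS').trans (Nat.prod_primeFactors_dvd n), hn⟩
  · intro S hS T hT h
    have hS' : S ⊆ n.primeFactors := by simpa using hS
    have hT' : T ⊆ n.primeFactors := by simpa using hT
    have h1 := Nat.primeFactors_prod (s := S) (fun p hp => Nat.prime_of_mem_primeFactors (hS' hp))
    have h2 := Nat.primeFactors_prod (s := T) (fun p hp => Nat.prime_of_mem_primeFactors (hT' hp))
    rw [← h1, ← h2]
    exact congrArg Nat.primeFactors h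

theorem sum_div (X : ℕ) :
    ∑ n ∈ Finset.Icc 1 X, (n.divisors.card : ℝ) ≤ X * (1 + Real.log X) := by
  have h1 : ∑ n ∈ Finset.Icc 1 X, (n.divisors.card : ℝ) ≤
      ∑ a ∈ Finset.Icc 1 X, ((X / a : ℕ) : ℝ) := by
    have h2 : ∀ n ∈ Finset.Icc 1 X, (n.divisors.card : ℝ) =
        ∑ a ∈ Finset.Icc 1 X, if a ∣ n then (1 : ℝ) else 0 := by
      intro n hn
      rw [← Finset.sum_filter, Finset.sum_const, nsmul_eq_mul, mul_one]
      congr 2
      ext a
      simp only [Nat.mem_divisors, Finset.mem_filter, Finset.mem_Icc] at hn ⊢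
      constructor
      · rintro ⟨h, h'⟩
        exact ⟨⟨Nat.pos_of_dvd_of_pos h hn.1, (Nat.le_of_dvd hn.1 h).trans hn.2⟩, h⟩
      · rintro ⟨_, h⟩
        exact ⟨h, by omega⟩
    rw [Finset.sum_congr rfl h2, Finset.sum_comm]
    refine Finset.sum_le_sum fun a _ => ?_
    rw [← Finset.sum_filter, Finset.sum_const, nsmul_eq_mul, mul_one]
    have h3 := Nat.Ioc_filter_dvd_card_eq_div X a
    have h4 : (Finset.Icc 1 X).filter (fun x => a ∣ x) = (Finset.Ioc 0 X).filter (fun x => a ∣ x) := by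
      ext x
      simp only [Finset.mem_filter, Finset.mem_Icc, Finset.mem_Ioc]
      constructor <;> rintro ⟨⟨h, h'⟩, h''⟩ <;> exact ⟨⟨by omega, h'⟩, h''⟩
    rw [h4, h3]
  refine h1.trans ?_
  have h5 : ∑ a ∈ Finset.Icc 1 X, ((X / a : ℕ) : ℝ) ≤ X * ((harmonic X : ℚ) : ℝ) := by
    rw [harmonic_eq_sum_Icc]
    push_cast
    rw [Finset.mul_sum]
    refine Finset.sum_le_sum fun a _ => ?_
    have := Nat.cast_div_le (α := ℝ) (m := X) (n := a)
    rwa [div_eq_mul_inv] at this
  exact h5.trans (mul_le_mul_of_nonneg_left (harmonic_le_one_add_log X) (Nat.cast_nonneg X))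

/-- T15: mean value of `2^ω(d)` -/
theorem T15 (X : ℕ) (hX : 3 ≤ X) :
    ∑ d ∈ sqf X, (2 : ℝ) ^ d.natAbs.primeFactors.card ≤ 4 * X * (1 + Real.log X) := by
  have h1 : sqf X ⊆ ((Finset.Icc 1 X).image (fun n : ℕ => (n : ℤ))) ∪
      ((Finset.Icc 1 X).image (fun n : ℕ => -(n : ℤ))) := by
    intro d hd
    have h2 := mem_sqf.1 hd
    have h3 : d ≠ 0 := by
      rintro rfl
      exact not_squarefree_zero h2.2
    have h4 : 1 ≤ d.natAbs := Int.natAbs_pos.2 h3
    have h5 : d.natAbs ≤ X := by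
      have := h2.1
      rw [Int.abs_eq_natAbs] at this
      exact_mod_cast this
    simp only [Finset.mem_union, Finset.mem_image, Finset.mem_Icc]
    rcases Int.natAbs_eq d with h | h
    · exact Or.inl ⟨d.natAbs, ⟨h4, h5⟩, h.symm⟩
    · exact Or.inr ⟨d.natAbs, ⟨h4, h5⟩, h.symm⟩
  have hle : ∑ d ∈ sqf X, (2 : ℝ) ^ d.natAbs.primeFactors.card ≤
      ∑ n ∈ Finset.Icc 1 X, (2 : ℝ) ^ n.primeFactors.card +
        ∑ n ∈ Finset.Icc 1 X, (2 : ℝ) ^ n.primeFactors.card := by
    refine (Finset.sum_le_sum_of_subset_of_nonneg h1 (fun _ _ _ => by positivity)).trans ?_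
    have h9 := Finset.sum_union_inter (s₁ := (Finset.Icc 1 X).image (fun n : ℕ => (n : ℤ)))
      (s₂ := (Finset.Icc 1 X).image (fun n : ℕ => -(n : ℤ)))
      (f := fun d : ℤ => (2 : ℝ) ^ d.natAbs.primeFactors.card)
    have h10 : 0 ≤ ∑ d ∈ ((Finset.Icc 1 X).image (fun n : ℕ => (n : ℤ))) ∩
      ((Finset.Icc 1 X).image (fun n : ℕ => -(n : ℤ))), (2 : ℝ) ^ d.natAbs.primeFactors.card :=
      Finset.sum_nonneg fun _ _ => by positivity
    rw [Finset.sum_image (fun _ _ _ _ h => by exact_mod_cast h),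
      Finset.sum_image (fun _ _ _ _ h => by simpa using h)] at h9
    simp only [Int.natAbs_natCast, Int.natAbs_neg] at h9
    linarith
  have h6 : ∑ n ∈ Finset.Icc 1 X, (2 : ℝ) ^ n.primeFactors.card ≤ X * (1 + Real.log X) := by
    refine (Finset.sum_le_sum fun n hn => ?_).trans (sum_div X)
    have := two_pow_omega_le (n := n) (by have := (Finset.mem_Icc.1 hn).1; omega)
    exact_mod_cast this
  have h7 : 0 ≤ Real.log X := Real.log_natCast_nonneg X
  have h8 : (0 : ℝ) ≤ X * (1 + Real.log X) := by positivity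
  linarith

end Pool.Agent.Y496.QT
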