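import Pool.Agent.Y496.QT3
import Pool.Agent.H66R2.RZ_P4

/-!
Project QT (owner helper19), task T12a: orthogonality of quadratic characters for short sums.
-/

set_option autoImplicit false

namespace Pool.Agent.Y496.QT

open Complex MeasureTheory Filter Topology
open Pool.Agent.H306R2.RZ (js Gk cas)
open Pool.Agent.Y19.QT
open scoped ENNReal ComplexConjugate

noncomputable section

theorem exp_pow20 {y : ℝ} (hy : 0 < y) :
    Real.exp (-(Real.pi * y ^ 2)) ≤ (Nat.factorial 10 : ℝ) * (1 / y ^ 20) := by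
  have hx : 0 < Real.pi * y ^ 2 := by positivity
  have h := Real.pow_div_factorial_le_exp (Real.pi * y ^ 2) hx.le 10
  have hf : (0 : ℝ) < (Nat.factorial 10 : ℝ) := by exact_mod_cast Nat.factorial_pos 10
  have h1 : y ^ 20 / (Nat.factorial 10 : ℝ) ≤ Real.exp (Real.pi * y ^ 2) := by
    refine le_trans ?_ h
    apply div_le_div_of_nonneg_right _ hf.le
    have h2 : y ^ 20 = (y ^ 2) ^ 10 := by ring
    rw [h2]
    apply pow_le_pow_left₀ (by positivity)
    have := Real.pi_gt_three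
    nlinarith [sq_nonneg y]
  rw [Real.exp_neg]
  have h3 : (0 : ℝ) < y ^ 20 / (Nat.factorial 10 : ℝ) := by positivity
  calc (Real.exp (Real.pi * y ^ 2))⁻¹ ≤ (y ^ 20 / (Nat.factorial 10 : ℝ))⁻¹ := inv_anti₀ h3 h1
    _ = (Nat.factorial 10 : ℝ) * (1 / y ^ 20) := by
      rw [inv_div]; ring

/-- the constant -/
def C12 : ℝ := 2 * (Nat.factorial 10 : ℝ) * ∑' j : ℤ, mj j

theorem C12_nonneg : 0 ≤ C12 := by
  unfold C12
  have : 0 ≤ ∑' j : ℤ, mj j := tsum_nonneg mj_nonneg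
  positivity

theorem S_bound (hT2 : St2) {N : ℕ} (hN : Odd N) {X : ℝ} (hX : 1 ≤ X) :
    |∑' k : ℤ, js k N * EE X k| ≤ X * (if IsSquare N then 1 else 0) + C12 / X ^ 19 * (N : ℝ) ^ 20 := by
  have hX0 : 0 < X := by linarith
  have hN0 : N ≠ 0 := by
    rintro rfl
    exact absurd hN (by decide)
  have hNp : (0 : ℝ) < N := by exact_mod_cast Nat.pos_of_ne_zero hN0
  obtain ⟨-, hs, h⟩ := hT2 N hN X hX0
  have h' : ∑' k : ℤ, js k N * EE X k = X / N * ∑' j : ℤ, Gk j N *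
      Real.exp (-(Real.pi * (j * X / N) ^ 2)) := h
  rw [h', abs_mul, abs_of_nonneg (by positivity)]
  have hb : ∀ j : ℤ, |Gk j N * Real.exp (-(Real.pi * (j * X / N) ^ 2))| ≤
      (if j = 0 then |Gk 0 N| else 0) +
        (2 * (N : ℝ) * (Nat.factorial 10 : ℝ) * (N / X) ^ 20) * mj j := by
    intro j
    rw [abs_mul, Real.abs_exp]
    by_cases hj : j = 0
    · subst hj
      have e1 : Real.exp (-(Real.pi * (((0 : ℤ) : ℝ) * X / N) ^ 2)) = 1 := by simp
      rw [e1, mul_one, if_pos rfl]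
      have : 0 ≤ (2 * (N : ℝ) * (Nat.factorial 10 : ℝ) * (N / X) ^ 20) * mj 0 :=
        mul_nonneg (by positivity) (mj_nonneg 0)
      linarith
    · rw [if_neg hj, zero_add]
      have hj0 : (j : ℝ) ≠ 0 := by exact_mod_cast hj
      have h1 : (1 : ℝ) ≤ |(j : ℝ)| := by
        have := Int.one_le_abs hj
        exact_mod_cast this
      have e1 : (j * X / N) ^ 2 = (|(j : ℝ)| * X / N) ^ 2 := by
        rw [div_pow, div_pow, mul_pow, mul_pow, sq_abs]
      rw [e1]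
      have h2 := exp_pow20 (y := |(j : ℝ)| * X / N) (by positivity)
      have h3 := Gk_abs j N
      have h4 : 1 / (|(j : ℝ)| * X / N) ^ 20 ≤ (N / X) ^ 20 * mj j := by
        unfold mj
        rw [if_neg hj]
        have h5 : 1 / (|(j : ℝ)| * X / N) ^ 20 = (N / X) ^ 20 * (1 / |(j : ℝ)| ^ 20) := by
          field_simp
        rw [h5]
        gcongr
        rw [← sq_abs (j : ℝ)]
        exact pow_le_pow_right₀ h1 (by norm_num)
      calc |Gk j N| * Real.exp (-(Real.pi * (|(j : ℝ)| * X / N) ^ 2))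
          ≤ (2 * N) * ((Nat.factorial 10 : ℝ) * ((N / X) ^ 20 * mj j)) := by
            have := mj_nonneg j
            gcongr
            exact h2.trans (by gcongr)
        _ = _ := by ring
  have hsum1 : Summable (fun j : ℤ => if j = 0 then |Gk 0 N| else 0) :=
    (hasSum_ite_eq (0 : ℤ) |Gk 0 N|).summable
  have hsum2 := mj_sum.mul_left (2 * (N : ℝ) * (Nat.factorial 10 : ℝ) * (N / X) ^ 20)
  have h1 : |∑' j : ℤ, Gk j N * Real.exp (-(Real.pi * (j * X / N) ^ 2))| ≤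
      |Gk 0 N| + (2 * (N : ℝ) * (Nat.factorial 10 : ℝ) * (N / X) ^ 20) * ∑' j : ℤ, mj j := by
    have h2 := tsum_of_norm_bounded (f := fun j : ℤ => Gk j N *
      Real.exp (-(Real.pi * (j * X / N) ^ 2))) (hsum1.add hsum2).hasSum hb
    rw [(hsum1).tsum_add hsum2, tsum_ite_eq, tsum_mul_left] at h2
    exact h2
  have hG : |Gk 0 N| ≤ N * (if IsSquare N then 1 else 0) := by
    rw [Pool.Agent.H66R2.RZP4.P4a N hN]
    split_ifs
    · rw [mul_one, abs_of_nonneg (by positivity)]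
      exact_mod_cast Nat.totient_le N
    · simp
  calc X / N * |∑' j : ℤ, Gk j N * Real.exp (-(Real.pi * (j * X / N) ^ 2))|
      ≤ X / N * (N * (if IsSquare N then 1 else 0) +
        (2 * (N : ℝ) * (Nat.factorial 10 : ℝ) * (N / X) ^ 20) * ∑' j : ℤ, mj j) := by
        have := h1.trans (add_le_add_left hG _)
        gcongr
    _ = X * (if IsSquare N then 1 else 0) + C12 / X ^ 19 * (N : ℝ) ^ 20 := by
        unfold C12
        field_simp

/-- the terms of the expansion -/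
def F4 (x : ℕ → ℂ) (X : ℝ) (k : ℤ) (p : ℕ × ℕ) : ℂ :=
  (EE X k : ℂ) * ((x p.1 * (js k p.1 : ℂ)) * (conj (x p.2) * (js k p.2 : ℂ)))

theorem F4_sum {x : ℕ → ℂ} (hx : Summable (fun n => ‖x n‖)) {X : ℝ} (hX : 0 < X) :
    Summable (Function.uncurry (F4 x X)) := by
  have h := (EE_sum hX).mul_of_nonneg (hx.mul_of_nonneg hx
    (fun _ => norm_nonneg _) (fun _ => norm_nonneg _)) (fun k => (EE_pos X k).le)
    (fun p => mul_nonneg (norm_nonneg _) (norm_nonneg _))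
  refine Summable.of_norm_bounded h ?_
  rintro ⟨k, p⟩
  show ‖F4 x X k p‖ ≤ EE X k * (‖x p.1‖ * ‖x p.2‖)
  unfold F4
  rw [norm_mul, norm_mul, Complex.norm_real, Real.norm_of_nonneg (EE_pos X k).le]
  have h1 := norm_js_mul (x p.1) k p.1
  have h2 := norm_js_mul (conj (x p.2)) k p.2
  rw [Complex.norm_conj] at h2
  gcongr
  exact (EE_pos X k).le

theorem stepA4 {x : ℕ → ℂ} (hx : Summable (fun n => ‖x n‖)) (X : ℝ) (k : ℤ) :
    ((EE X k * ‖∑' n : ℕ, x n * js k n‖ ^ 2 : ℝ) : ℂ) = ∑' p : ℕ × ℕ, F4 x X k p := by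
  have hs1 : Summable (fun n => ‖x n * (js k n : ℂ)‖) :=
    Summable.of_nonneg_of_le (fun _ => norm_nonneg _) (fun n => norm_js_mul _ _ _) hx
  have hs2 : Summable (fun n => ‖conj (x n) * (js k n : ℂ)‖) := by
    refine Summable.of_nonneg_of_le (fun _ => norm_nonneg _) (fun n => ?_) hx
    have := norm_js_mul (conj (x n)) k n
    rwa [Complex.norm_conj] at this
  unfold F4
  rw [tsum_mul_left, ← tsum_mul_tsum_of_summable_norm hs1 hs2]
  have h1 : ∑' n, conj (x n) * (js k n : ℂ) = conj (∑' n : ℕ, x n * js k n) := by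
    rw [Complex.conj_tsum]
    refine tsum_congr fun n => ?_
    rw [map_mul, Complex.conj_ofReal]
  rw [h1, Complex.mul_conj']
  push_cast
  ring

theorem T12a_of (hT2 : St2) : ∃ C : ℝ, 0 < C ∧ ∀ (X : ℝ) (x : ℕ → ℂ), 1 ≤ X →
    (∀ n, x n ≠ 0 → Odd n) → Summable (fun n : ℕ => ‖x n‖ * (n : ℝ) ^ 20) →
    ∑' k : ℤ, ENNReal.ofReal (Real.exp (-(Real.pi * (k / X) ^ 2))) * ‖∑' n : ℕ, x n * js k n‖ₑ ^ 2 ≤
      ENNReal.ofReal (X * (∑' m : ℕ × ℕ, if IsSquare (m.1 * m.2) then ‖x m.1‖ * ‖x m.2‖ else 0) +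
        C / X ^ 19 * (∑' n : ℕ, ‖x n‖ * (n : ℝ) ^ 20) ^ 2) := by
  refine ⟨C12 + 1, by linarith [C12_nonneg], fun X x hX hodd hx20 => ?_⟩
  have hX0 : 0 < X := by linarith
  have hx : Summable (fun n => ‖x n‖) := by
    refine Summable.of_nonneg_of_le (fun _ => norm_nonneg _) (fun n => ?_) hx20
    by_cases h : x n = 0
    · rw [h]; simp
    · have h1 : (1 : ℝ) ≤ n := by exact_mod_cast (hodd n h).pos
      have h2 : (1 : ℝ) ≤ (n : ℝ) ^ 20 := one_le_pow₀ h1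
      have := norm_nonneg (x n)
      nlinarith
  have hs1 := F4_sum hx hX0
  have hreal : Summable (fun k : ℤ => EE X k * ‖∑' n : ℕ, x n * js k n‖ ^ 2) := by
    have h := hs1.prod
    have h' : Summable (fun k : ℤ => ((EE X k * ‖∑' n : ℕ, x n * js k n‖ ^ 2 : ℝ) : ℂ)) := by
      refine h.congr fun k => ?_
      exact (stepA4 hx X k).symm
    exact Complex.summable_ofReal.1 h'
  have h0 : ∀ k, 0 ≤ EE X k * ‖∑' n : ℕ, x n * js k n‖ ^ 2 := fun k =>
    mul_nonneg (EE_pos X k).le (sq_nonneg _)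
  have hid : ((∑' k : ℤ, EE X k * ‖∑' n : ℕ, x n * js k n‖ ^ 2 : ℝ) : ℂ) =
      ∑' p : ℕ × ℕ, (x p.1 * conj (x p.2)) *
        ((∑' k : ℤ, js k (p.1 * p.2) * EE X k : ℝ) : ℂ) := by
    rw [Complex.ofReal_tsum]
    simp_rw [stepA4 hx X]
    rw [← hs1.tsum_comm]
    refine tsum_congr fun p => ?_
    rw [Complex.ofReal_tsum, ← tsum_mul_left]
    refine tsum_congr fun k => ?_
    unfold F4
    by_cases h1 : x p.1 = 0
    · rw [h1]; simp
    by_cases h2 : x p.2 = 0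
    · rw [h2]; simp
    rw [js_mul k (hodd _ h1).pos.ne' (hodd _ h2).pos.ne']
    push_cast
    ring
  have hprod := hx.mul_of_nonneg hx (fun _ => norm_nonneg _) (fun _ => norm_nonneg _)
  have hsq : Summable (fun m : ℕ × ℕ => if IsSquare (m.1 * m.2) then ‖x m.1‖ * ‖x m.2‖ else 0) := by
    refine Summable.of_nonneg_of_le (fun m => ?_) (fun m => ?_) hprod
    · split_ifs <;> positivity
    · split_ifs
      · exact le_rfl
      · positivity
  have h20 := hx20.mul_of_nonneg hx20 (fun _ => by positivity) (fun _ => by positivity)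
  have hbound : ∀ p : ℕ × ℕ, ‖(x p.1 * conj (x p.2)) *
      ((∑' k : ℤ, js k (p.1 * p.2) * EE X k : ℝ) : ℂ)‖ ≤
      X * (if IsSquare (p.1 * p.2) then ‖x p.1‖ * ‖x p.2‖ else 0) +
        C12 / X ^ 19 * ((‖x p.1‖ * (p.1 : ℝ) ^ 20) * (‖x p.2‖ * (p.2 : ℝ) ^ 20)) := by
    intro p
    rw [norm_mul, norm_mul, Complex.norm_conj, Complex.norm_real, Real.norm_eq_abs]
    by_cases h1 : x p.1 = 0
    · rw [h1]; simp
    by_cases h2 : x p.2 = 0
    · rw [h2]; simp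
    have h3 := S_bound hT2 ((hodd _ h1).mul (hodd _ h2)) hX
    calc ‖x p.1‖ * ‖x p.2‖ * |∑' k : ℤ, js k (p.1 * p.2) * EE X k|
        ≤ ‖x p.1‖ * ‖x p.2‖ * (X * (if IsSquare (p.1 * p.2) then 1 else 0) +
          C12 / X ^ 19 * ((p.1 * p.2 : ℕ) : ℝ) ^ 20) := by gcongr
      _ = _ := by
          push_cast
          split_ifs <;> ring
  have hle : (∑' k : ℤ, EE X k * ‖∑' n : ℕ, x n * js k n‖ ^ 2) ≤
      X * (∑' m : ℕ × ℕ, if IsSquare (m.1 * m.2) then ‖x m.1‖ * ‖x m.2‖ else 0) +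
        C12 / X ^ 19 * (∑' n : ℕ, ‖x n‖ * (n : ℝ) ^ 20) ^ 2 := by
    have h1 := tsum_of_norm_bounded ((hsq.mul_left X).add (h20.mul_left (C12 / X ^ 19))).hasSum hbound
    rw [← hid, Complex.norm_real, Real.norm_of_nonneg (tsum_nonneg h0),
      (hsq.mul_left X).tsum_add (h20.mul_left (C12 / X ^ 19)), tsum_mul_left, tsum_mul_left] at h1
    have h2 : ∑' p : ℕ × ℕ, (‖x p.1‖ * (p.1 : ℝ) ^ 20) * (‖x p.2‖ * (p.2 : ℝ) ^ 20) =
        (∑' n : ℕ, ‖x n‖ * (n : ℝ) ^ 20) ^ 2 := by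
      rw [sq, hx20.tsum_mul_tsum hx20 h20]
    rwa [h2] at h1
  have hL : ∑' k : ℤ, ENNReal.ofReal (Real.exp (-(Real.pi * (k / X) ^ 2))) *
      ‖∑' n : ℕ, x n * js k n‖ₑ ^ 2 =
        ENNReal.ofReal (∑' k : ℤ, EE X k * ‖∑' n : ℕ, x n * js k n‖ ^ 2) := by
    rw [ENNReal.ofReal_tsum_of_nonneg h0 hreal]
    refine tsum_congr fun k => ?_
    rw [ENNReal.ofReal_mul (EE_pos X k).le, ENNReal.ofReal_pow (norm_nonneg _), ofReal_norm]
    rfl
  rw [hL]
  apply ENNReal.ofReal_le_ofReal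
  refine hle.trans ?_
  have : 0 ≤ (∑' n : ℕ, ‖x n‖ * (n : ℝ) ^ 20) ^ 2 := sq_nonneg _
  have h1 : C12 / X ^ 19 ≤ (C12 + 1) / X ^ 19 := by gcongr; linarith
  gcongr

end

end Pool.Agent.Y496.QT
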