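import Pool.Agent.Y496.QT3
import Pool.Agent.Y496.QT12a
import Pool.Agent.Y494.QT1
import Pool.Agent.Y494.QT2

set_option autoImplicit false

/-! # QT-T3 and QT-T12a, without hypotheses (from T1, T2 of `Y494`) -/

namespace Pool.Agent.Y496.QT

open Complex MeasureTheory Filter Topology
open Pool.Agent.H306R2.RZ (js Gk)
open Pool.Agent.Y19.QT
open scoped ENNReal ComplexConjugate

noncomputable section

theorem st1 : St1 := fun j m n hm hn hmo hno => Pool.Agent.Y494.QT1.T1 j m n hm hn hmo hno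

theorem st2 : St2 := fun n hn K hK => Pool.Agent.Y494.QT2.T2 n hn K hK

/-- T3: expansion of the square, Poisson summation, gcd -/
theorem T3 (Q : ℕ) (lam : ℕ → ℝ) (H : Hecke Q lam) (K : ℝ) (hK : 0 < K) (w : ℂ) (hw : 0 < w.re) :
    ∑' k : ℤ, ENNReal.ofReal (Real.exp (-(Real.pi * (k / K) ^ 2))) * ‖G lam k w‖ₑ ^ 2 ≤
      ENNReal.ofReal K *
        ((∑' n : ℕ, ENNReal.ofReal (flat lam n ^ 2 * n * Real.exp (-(4 * Real.pi * n * w.re)))) +
        ∑' j : ℤ, if j = 0 then 0 else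
          ∑' b : ℕ, ENNReal.ofReal (flat lam b ^ 2 * |hb j b|) *
            ‖AA (cof lam j b) b (|(j : ℝ)| * K) w‖ₑ) :=
  T3_of st1 st2 Q lam H K hK w hw

/-- T12a: orthogonality of quadratic characters, for short sums -/
theorem T12a : ∃ C : ℝ, 0 < C ∧ ∀ (X : ℝ) (x : ℕ → ℂ), 1 ≤ X → (∀ n, x n ≠ 0 → Odd n) →
    Summable (fun n : ℕ => ‖x n‖ * (n : ℝ) ^ 20) →
    ∑' k : ℤ, ENNReal.ofReal (Real.exp (-(Real.pi * (k / X) ^ 2))) * ‖∑' n : ℕ, x n * js k n‖ₑ ^ 2 ≤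
      ENNReal.ofReal (X * (∑' m : ℕ × ℕ, if IsSquare (m.1 * m.2) then ‖x m.1‖ * ‖x m.2‖ else 0) +
        C / X ^ 19 * (∑' n : ℕ, ‖x n‖ * (n : ℝ) ^ 20) ^ 2) :=
  T12a_of st2

end

end Pool.Agent.Y496.QT
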