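import Pool.Agent.Y19.QT.Defs

/-!
Project QT (owner helper19), task T3: expansion of the square. Part a: elementary bounds.
-/

set_option autoImplicit false

namespace Pool.Agent.Y496.QT

open Complex MeasureTheory Filter Topology
open Pool.Agent.H306R2.RZ (js Gk cas)
open Pool.Agent.Y19.QT
open scoped ENNReal ComplexConjugate

noncomputable section

theorem js_abs (k : ℤ) (n : ℕ) : |js k n| ≤ 1 := by
  unfold js
  rcases jacobiSym.trichotomy k n with h | h | h <;> rw [h] <;> simp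

theorem js_mul (k : ℤ) {m n : ℕ} (hm : m ≠ 0) (hn : n ≠ 0) : js k (m * n) = js k m * js k n := by
  unfold js
  rw [jacobiSym.mul_right' k hm hn]
  push_cast
  ring

theorem Gk_abs (j : ℤ) (n : ℕ) : |Gk j n| ≤ 2 * n := by
  unfold Gk
  refine (Finset.abs_sum_le_sum_abs _ _).trans ?_
  calc ∑ r ∈ Finset.range n, |js (r : ℤ) n * cas (2 * Real.pi * (j : ℝ) * (r : ℝ) / (n : ℝ))|
      ≤ ∑ r ∈ Finset.range n, (2 : ℝ) := by
        refine Finset.sum_le_sum fun r _ => ?_
        rw [abs_mul]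
        have h1 := js_abs r n
        have h2 : |cas (2 * Real.pi * (j : ℝ) * (r : ℝ) / (n : ℝ))| ≤ 2 := by
          unfold cas
          refine (abs_add_le _ _).trans ?_
          have := Real.abs_cos_le_one (2 * Real.pi * (j : ℝ) * (r : ℝ) / (n : ℝ))
          have := Real.abs_sin_le_one (2 * Real.pi * (j : ℝ) * (r : ℝ) / (n : ℝ))
          linarith
        nlinarith [abs_nonneg (js (r : ℤ) n),
          abs_nonneg (cas (2 * Real.pi * (j : ℝ) * (r : ℝ) / (n : ℝ)))]
    _ = 2 * n := by simp [mul_comm]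

theorem lam_sqf {Q : ℕ} {lam : ℕ → ℝ} (H : Hecke Q lam) (n : ℕ) (hn : Squarefree n) :
    |lam n| ≤ n := by
  induction n using Nat.strong_induction_on with
  | _ n ih =>
    rcases Nat.lt_or_ge n 2 with h | h
    · interval_cases n
      · rw [H.zero]; simp
      · rw [H.one]; simp
    · obtain ⟨m, hm⟩ := Nat.minFac_dvd n
      have hp := Nat.minFac_prime (show n ≠ 1 by omega)
      set p := n.minFac with hpd
      have hcop : p.Coprime m := by
        rw [hm] at hn
        exact Nat.coprime_of_squarefree_mul hn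
      have hm0 : m ≠ 0 := by
        rintro rfl
        omega
      have hlt : m < n := by
        have := hp.two_le
        rw [hm]
        nlinarith [Nat.pos_of_ne_zero hm0]
      have hsm : Squarefree m := by
        rw [hm] at hn
        exact hn.of_mul_right
      have h1 := ih m hlt hsm
      rw [hm, H.mul p m hcop, abs_mul]
      push_cast
      have h2 := H.bound p hp
      have h3 : (2 : ℝ) ≤ p := by exact_mod_cast hp.two_le
      exact mul_le_mul (h2.trans h3) h1 (abs_nonneg _) (by positivity)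

theorem flat_abs {Q : ℕ} {lam : ℕ → ℝ} (H : Hecke Q lam) (n : ℕ) : |flat lam n| ≤ n := by
  unfold flat
  split_ifs with h
  · exact lam_sqf H n h
  · simp

theorem flat_zero (lam : ℕ → ℝ) : flat lam 0 = 0 := by
  unfold flat
  rw [if_neg]
  exact not_squarefree_zero

theorem flat_ne {Q : ℕ} {lam : ℕ → ℝ} (H : Hecke Q lam) {n : ℕ} (h : flat lam n ≠ 0) :
    Squarefree n ∧ Odd n ∧ n ≠ 0 := by
  unfold flat at h
  split_ifs at h with hs
  · refine ⟨hs, ?_, hs.ne_zero⟩
    rw [← Nat.not_even_iff_odd]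
    intro he
    obtain ⟨m, hm⟩ := he.two_dvd
    apply h
    have hcop : (2 : ℕ).Coprime m := by
      rw [hm] at hs
      exact Nat.coprime_of_squarefree_mul hs
    rw [hm, H.mul 2 m hcop]
    have h2 : lam 2 = 0 := by
      have := H.bad 2 0 Nat.prime_two (H.small 2 Nat.prime_two (by norm_num))
      simpa using this
    rw [h2, zero_mul]
  · exact absurd rfl h

theorem flat_mul {Q : ℕ} {lam : ℕ → ℝ} (H : Hecke Q lam) {m n : ℕ} (h : m.Coprime n) :
    flat lam (m * n) = flat lam m * flat lam n := by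
  have hs := Nat.squarefree_mul h
  unfold flat
  by_cases h1 : Squarefree m <;> by_cases h2 : Squarefree n <;> simp [hs, h1, h2, H.mul m n h]

/-- the coefficients -/
def cc (lam : ℕ → ℝ) (w : ℂ) (n : ℕ) : ℂ :=
  ((flat lam n * Real.sqrt n : ℝ) : ℂ) * cexp (-(2 * Real.pi * n * w))

theorem G_eq (lam : ℕ → ℝ) (k : ℤ) (w : ℂ) : G lam k w = ∑' n : ℕ, cc lam w n * (js k n : ℂ) := by
  unfold G cc
  refine tsum_congr fun n => ?_
  push_cast
  ring

theorem cc_zero (lam : ℕ → ℝ) (w : ℂ) : cc lam w 0 = 0 := by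
  unfold cc
  rw [flat_zero]
  simp

theorem cc_ne {Q : ℕ} {lam : ℕ → ℝ} (H : Hecke Q lam) {w : ℂ} {n : ℕ} (h : cc lam w n ≠ 0) :
    Squarefree n ∧ Odd n ∧ n ≠ 0 := by
  apply flat_ne H
  intro h0
  apply h
  unfold cc
  rw [h0]
  simp

theorem norm_cexp (n : ℕ) (w : ℂ) :
    ‖cexp (-(2 * Real.pi * n * w))‖ = Real.exp (-(2 * Real.pi * n * w.re)) := by
  rw [Complex.norm_exp]
  congr 1
  have : (-(2 * (Real.pi : ℂ) * n * w)) = (((-(2 * Real.pi * n)) : ℝ) : ℂ) * w := by
    push_cast; ring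
  rw [this, Complex.re_ofReal_mul]
  ring

theorem cc_norm {Q : ℕ} {lam : ℕ → ℝ} (H : Hecke Q lam) (w : ℂ) (n : ℕ) :
    ‖cc lam w n‖ ≤ n ^ 2 * Real.exp (-(2 * Real.pi * n * w.re)) := by
  unfold cc
  rw [norm_mul, norm_cexp, Complex.norm_real, Real.norm_eq_abs, abs_mul]
  refine mul_le_mul_of_nonneg_right ?_ (Real.exp_pos _).le
  have h1 := flat_abs H n
  have h2 : |Real.sqrt n| ≤ n := by
    rw [abs_of_nonneg (Real.sqrt_nonneg _)]
    rcases Nat.eq_zero_or_pos n with h | h
    · subst h; simp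
    · rw [Real.sqrt_le_left (by positivity)]
      have : (1 : ℝ) ≤ n := by exact_mod_cast h
      nlinarith
  calc |flat lam n| * |Real.sqrt n| ≤ n * n := mul_le_mul h1 h2 (abs_nonneg _) (by positivity)
    _ = n ^ 2 := by ring

theorem cc_sum {Q : ℕ} {lam : ℕ → ℝ} (H : Hecke Q lam) {w : ℂ} (hw : 0 < w.re) (a : ℕ) :
    Summable (fun n : ℕ => ‖cc lam w n‖ * (n : ℝ) ^ a) := by
  have h := Real.summable_pow_mul_exp_neg_nat_mul (a + 2) (r := 2 * Real.pi * w.re) (by positivity)
  refine Summable.of_nonneg_of_le (fun n => by positivity) (fun n => ?_) h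
  have h1 := cc_norm H w n
  calc ‖cc lam w n‖ * (n : ℝ) ^ a ≤ (n ^ 2 * Real.exp (-(2 * Real.pi * n * w.re))) * (n : ℝ) ^ a :=
        mul_le_mul_of_nonneg_right h1 (by positivity)
    _ = (n : ℝ) ^ (a + 2) * Real.exp (-(2 * Real.pi * w.re) * n) := by
        rw [pow_add]
        have : -(2 * Real.pi * n * w.re) = -(2 * Real.pi * w.re) * n := by ring
        rw [this]
        ring

theorem cc_sum0 {Q : ℕ} {lam : ℕ → ℝ} (H : Hecke Q lam) {w : ℂ} (hw : 0 < w.re) :
    Summable (fun n : ℕ => ‖cc lam w n‖) := by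
  simpa using cc_sum H hw 0

/-- majorant on the integers -/
def mj (j : ℤ) : ℝ := if j = 0 then 1 else 1 / (j : ℝ) ^ 2

theorem mj_nonneg (j : ℤ) : 0 ≤ mj j := by
  unfold mj
  split_ifs <;> positivity

theorem mj_sum : Summable mj := by
  have h := Real.summable_one_div_int_pow.2 (show 1 < 2 by norm_num)
  refine Summable.of_norm_bounded_eventually (g := fun j : ℤ => 1 / (j : ℝ) ^ 2) h ?_
  rw [Filter.eventually_cofinite]
  refine (Set.finite_singleton (0 : ℤ)).subset ?_
  intro j hj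
  by_contra hne
  apply hj
  have : j ≠ 0 := hne
  unfold mj
  rw [if_neg this]
  rw [Real.norm_of_nonneg (by positivity)]

theorem exp_mj {K : ℝ} (hK : 0 < K) {m : ℝ} (hm : 1 ≤ m) (j : ℤ) :
    Real.exp (-(Real.pi * (j * K / m) ^ 2)) ≤ (1 + 1 / K ^ 2) * m ^ 2 * mj j := by
  unfold mj
  split_ifs with h
  · subst h
    have h1 : Real.exp (-(Real.pi * (((0 : ℤ) : ℝ) * K / m) ^ 2)) = 1 := by simp
    rw [h1]
    have h2 : 0 ≤ 1 / K ^ 2 := by positivity
    nlinarith
  · have hj : (j : ℝ) ≠ 0 := by exact_mod_cast h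
    have hx : 0 < Real.pi * (j * K / m) ^ 2 := by positivity
    have h1 : Real.exp (-(Real.pi * (j * K / m) ^ 2)) ≤ 1 / (Real.pi * (j * K / m) ^ 2) := by
      rw [Real.exp_neg, one_div]
      apply inv_anti₀ hx
      linarith [Real.add_one_le_exp (Real.pi * (j * K / m) ^ 2)]
    refine h1.trans ?_
    have h2 : 1 / (Real.pi * (j * K / m) ^ 2) ≤ 1 / ((j * K / m) ^ 2) := by
      apply one_div_le_one_div_of_le (by positivity)
      have := Real.pi_gt_three
      have : 0 < (j * K / m) ^ 2 := by positivity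
      nlinarith
    refine h2.trans ?_
    have h3 : 1 / ((j * K / m) ^ 2) = (1 / K ^ 2) * m ^ 2 * (1 / (j : ℝ) ^ 2) := by
      field_simp
    rw [h3]
    have : 0 ≤ m ^ 2 * (1 / (j : ℝ) ^ 2) := by positivity
    nlinarith

end

end Pool.Agent.Y496.QT
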