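import Pool.Agent.Y496.QT3a

/-!
Project QT (owner helper19), task T3: expansion of the square, Poisson summation, gcd.
-/

set_option autoImplicit false

namespace Pool.Agent.Y496.QT

open Complex MeasureTheory Filter Topology
open Pool.Agent.H306R2.RZ (js Gk cas)
open Pool.Agent.Y19.QT
open scoped ENNReal ComplexConjugate

noncomputable section

/-- the statement T1 -/
def St1 : Prop := ∀ (j : ℤ) (m n : ℕ), Squarefree m → Squarefree n → Odd m → Odd n →
    Gk j (m * n) = Real.sqrt m * Real.sqrt n *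
      ∑ b ∈ (Nat.gcd m n).divisors, hb j b * js j (m / b) * js j (n / b)

/-- the statement T2 -/
def St2 : Prop := ∀ (n : ℕ), Odd n → ∀ (K : ℝ), 0 < K →
    Summable (fun k : ℤ => js k n * Real.exp (-(Real.pi * (k / K) ^ 2))) ∧
    Summable (fun j : ℤ => Gk j n * Real.exp (-(Real.pi * (j * K / n) ^ 2))) ∧
    ∑' k : ℤ, js k n * Real.exp (-(Real.pi * (k / K) ^ 2)) =
      K / n * ∑' j : ℤ, Gk j n * Real.exp (-(Real.pi * (j * K / n) ^ 2))

/-- the weight -/
def EE (K : ℝ) (k : ℤ) : ℝ := Real.exp (-(Real.pi * (k / K) ^ 2))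

theorem EE_pos (K : ℝ) (k : ℤ) : 0 < EE K k := Real.exp_pos _

theorem EE_sum {K : ℝ} (hK : 0 < K) : Summable (EE K) := by
  refine Summable.of_nonneg_of_le (fun k => (EE_pos K k).le) (fun k => ?_)
    (mj_sum.mul_left (1 + 1 / (1 / K) ^ 2))
  have h := exp_mj (K := 1 / K) (by positivity) (m := 1) le_rfl k
  unfold EE
  have e : (k : ℝ) * (1 / K) / 1 = k / K := by ring
  rw [e] at h
  simpa using h

/-- the terms of the expansion -/
def F1 (lam : ℕ → ℝ) (w : ℂ) (K : ℝ) (k : ℤ) (p : ℕ × ℕ) : ℂ :=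
  (EE K k : ℂ) * ((cc lam w p.1 * (js k p.1 : ℂ)) * (conj (cc lam w p.2) * (js k p.2 : ℂ)))

theorem norm_js (k : ℤ) (n : ℕ) : ‖(js k n : ℂ)‖ ≤ 1 := by
  rw [Complex.norm_real, Real.norm_eq_abs]
  exact js_abs k n

theorem norm_js_mul (z : ℂ) (k : ℤ) (n : ℕ) : ‖z * (js k n : ℂ)‖ ≤ ‖z‖ := by
  rw [norm_mul]
  exact mul_le_of_le_one_right (norm_nonneg _) (norm_js k n)

theorem F1_sum {Q : ℕ} {lam : ℕ → ℝ} (H : Hecke Q lam) {w : ℂ} (hw : 0 < w.re) {K : ℝ}
    (hK : 0 < K) : Summable (Function.uncurry (F1 lam w K)) := by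
  have h := (EE_sum hK).mul_of_nonneg ((cc_sum0 H hw).mul_of_nonneg (cc_sum0 H hw)
    (fun _ => norm_nonneg _) (fun _ => norm_nonneg _)) (fun k => (EE_pos K k).le)
    (fun p => mul_nonneg (norm_nonneg _) (norm_nonneg _))
  refine Summable.of_norm_bounded h ?_
  rintro ⟨k, p⟩
  show ‖F1 lam w K k p‖ ≤ EE K k * (‖cc lam w p.1‖ * ‖cc lam w p.2‖)
  unfold F1
  rw [norm_mul, norm_mul, Complex.norm_real, Real.norm_of_nonneg (EE_pos K k).le]
  have h1 := norm_js_mul (cc lam w p.1) k p.1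
  have h2 := norm_js_mul (conj (cc lam w p.2)) k p.2
  rw [Complex.norm_conj] at h2
  gcongr
  exact (EE_pos K k).le

theorem stepA {Q : ℕ} {lam : ℕ → ℝ} (H : Hecke Q lam) {w : ℂ} (hw : 0 < w.re) (K : ℝ) (k : ℤ) :
    ((EE K k * ‖G lam k w‖ ^ 2 : ℝ) : ℂ) = ∑' p : ℕ × ℕ, F1 lam w K k p := by
  have hs1 : Summable (fun n => ‖cc lam w n * (js k n : ℂ)‖) :=
    Summable.of_nonneg_of_le (fun _ => norm_nonneg _) (fun n => norm_js_mul _ _ _) (cc_sum0 H hw)
  have hs2 : Summable (fun n => ‖conj (cc lam w n) * (js k n : ℂ)‖) := by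
    refine Summable.of_nonneg_of_le (fun _ => norm_nonneg _) (fun n => ?_) (cc_sum0 H hw)
    have := norm_js_mul (conj (cc lam w n)) k n
    rwa [Complex.norm_conj] at this
  unfold F1
  rw [tsum_mul_left, ← tsum_mul_tsum_of_summable_norm hs1 hs2, ← G_eq]
  have h1 : ∑' n, conj (cc lam w n) * (js k n : ℂ) = conj (G lam k w) := by
    rw [G_eq, Complex.conj_tsum]
    refine tsum_congr fun n => ?_
    rw [map_mul, Complex.conj_ofReal]
  rw [h1, Complex.mul_conj']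
  push_cast
  ring

/-- the terms after Poisson summation -/
def F2 (lam : ℕ → ℝ) (w : ℂ) (K : ℝ) (j : ℤ) (p : ℕ × ℕ) : ℂ :=
  (cc lam w p.1 * conj (cc lam w p.2)) * ((K / ((p.1 * p.2 : ℕ) : ℝ) *
    (Gk j (p.1 * p.2) * Real.exp (-(Real.pi * (j * K / ((p.1 * p.2 : ℕ) : ℝ)) ^ 2))) : ℝ) : ℂ)

theorem F2_sum {Q : ℕ} {lam : ℕ → ℝ} (H : Hecke Q lam) {w : ℂ} (hw : 0 < w.re) {K : ℝ}
    (hK : 0 < K) : Summable (Function.uncurry (F2 lam w K)) := by
  have h := (mj_sum.mul_left (2 * K * (1 + 1 / K ^ 2))).mul_of_nonneg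
    ((cc_sum H hw 2).mul_of_nonneg (cc_sum H hw 2)
    (fun _ => by positivity) (fun _ => by positivity))
    (fun k => mul_nonneg (by positivity) (mj_nonneg k))
    (fun p => by positivity)
  refine Summable.of_norm_bounded h ?_
  rintro ⟨j, p⟩
  show ‖F2 lam w K j p‖ ≤ 2 * K * (1 + 1 / K ^ 2) * mj j *
    (‖cc lam w p.1‖ * (p.1 : ℝ) ^ 2 * (‖cc lam w p.2‖ * (p.2 : ℝ) ^ 2))
  by_cases h1 : cc lam w p.1 = 0
  · unfold F2
    rw [h1]
    simp
  by_cases h2 : cc lam w p.2 = 0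
  · unfold F2
    rw [h2]
    simp
  have n1 := (cc_ne H h1).2.2
  have n2 := (cc_ne H h2).2.2
  unfold F2
  rw [norm_mul, norm_mul, Complex.norm_conj, Complex.norm_real, Real.norm_eq_abs, abs_mul,
    abs_mul, Real.abs_exp]
  set m : ℝ := ((p.1 * p.2 : ℕ) : ℝ) with hm
  have hm1 : 1 ≤ m := by
    rw [hm]
    exact_mod_cast Nat.one_le_iff_ne_zero.2 (mul_ne_zero n1 n2)
  have hg := Gk_abs j (p.1 * p.2)
  rw [← hm] at hg
  have he := exp_mj hK hm1 j
  have h3 : |K / m| * (|Gk j (p.1 * p.2)| * Real.exp (-(Real.pi * (j * K / m) ^ 2))) ≤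
      2 * K * (1 + 1 / K ^ 2) * mj j * m ^ 2 := by
    rw [abs_of_nonneg (by positivity)]
    calc K / m * (|Gk j (p.1 * p.2)| * Real.exp (-(Real.pi * (j * K / m) ^ 2)))
        ≤ K / m * ((2 * m) * ((1 + 1 / K ^ 2) * m ^ 2 * mj j)) := by
          have := mj_nonneg j
          gcongr
      _ = 2 * K * (1 + 1 / K ^ 2) * mj j * m ^ 2 := by
          field_simp
  have hm2 : m ^ 2 = (p.1 : ℝ) ^ 2 * (p.2 : ℝ) ^ 2 := by
    rw [hm]; push_cast; ring
  calc ‖cc lam w p.1‖ * ‖cc lam w p.2‖ *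
      (|K / m| * (|Gk j (p.1 * p.2)| * Real.exp (-(Real.pi * (j * K / m) ^ 2))))
      ≤ ‖cc lam w p.1‖ * ‖cc lam w p.2‖ * (2 * K * (1 + 1 / K ^ 2) * mj j * m ^ 2) := by
        gcongr
    _ = 2 * K * (1 + 1 / K ^ 2) * mj j *
    (‖cc lam w p.1‖ * (p.1 : ℝ) ^ 2 * (‖cc lam w p.2‖ * (p.2 : ℝ) ^ 2)) := by
        rw [hm2]; ring

theorem stepC (hT2 : St2) {Q : ℕ} {lam : ℕ → ℝ} (H : Hecke Q lam) (w : ℂ) {K : ℝ} (hK : 0 < K)
    (p : ℕ × ℕ) : ∑' k : ℤ, F1 lam w K k p = ∑' j : ℤ, F2 lam w K j p := by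
  by_cases h1 : cc lam w p.1 = 0
  · unfold F1 F2
    rw [h1]
    simp
  by_cases h2 : cc lam w p.2 = 0
  · unfold F1 F2
    rw [h2]
    simp
  obtain ⟨-, o1, n1⟩ := cc_ne H h1
  obtain ⟨-, o2, n2⟩ := cc_ne H h2
  obtain ⟨-, -, h⟩ := hT2 (p.1 * p.2) (o1.mul o2) K hK
  have e1 : ∀ k : ℤ, F1 lam w K k p = (cc lam w p.1 * conj (cc lam w p.2)) *
      ((js k (p.1 * p.2) * Real.exp (-(Real.pi * (k / K) ^ 2)) : ℝ) : ℂ) := by
    intro k
    unfold F1 EE
    rw [js_mul k n1 n2]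
    push_cast
    ring
  have e2 : ∀ j : ℤ, F2 lam w K j p = (cc lam w p.1 * conj (cc lam w p.2)) *
      (((K / ((p.1 * p.2 : ℕ) : ℝ) : ℝ) : ℂ) * ((Gk j (p.1 * p.2) *
        Real.exp (-(Real.pi * (j * K / ((p.1 * p.2 : ℕ) : ℝ)) ^ 2)) : ℝ) : ℂ)) := by
    intro j
    unfold F2
    push_cast
    ring
  simp_rw [e1, e2]
  rw [tsum_mul_left, tsum_mul_left, tsum_mul_left, ← Complex.ofReal_tsum, h, ← Complex.ofReal_tsum]
  push_cast
  ring

/-- the terms after the evaluation of the Gauss sums -/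
def F3 (lam : ℕ → ℝ) (w : ℂ) (K : ℝ) (j : ℤ) (p : ℕ × ℕ) (b : ℕ) : ℂ :=
  if b ∈ (Nat.gcd p.1 p.2).divisors then
    ((hb j b * (flat lam p.1 * js j (p.1 / b)) * (flat lam p.2 * js j (p.2 / b)) *
      Real.exp (-(Real.pi * (j * K / ((p.1 * p.2 : ℕ) : ℝ)) ^ 2)) : ℝ) : ℂ) *
      (cexp (-(2 * Real.pi * p.1 * w)) * conj (cexp (-(2 * Real.pi * p.2 * w))))
  else 0

theorem stepE (hT1 : St1) {Q : ℕ} {lam : ℕ → ℝ} (H : Hecke Q lam) (w : ℂ) (K : ℝ)
    (j : ℤ) (p : ℕ × ℕ) : F2 lam w K j p = K * ∑' b : ℕ, F3 lam w K j p b := by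
  by_cases h1 : flat lam p.1 = 0
  · have : ∀ b, F3 lam w K j p b = 0 := fun b => by
      unfold F3
      rw [h1]
      simp
    simp_rw [this]
    unfold F2 cc
    rw [h1]
    simp
  by_cases h2 : flat lam p.2 = 0
  · have : ∀ b, F3 lam w K j p b = 0 := fun b => by
      unfold F3
      rw [h2]
      simp
    simp_rw [this]
    unfold F2 cc
    rw [h2]
    simp
  obtain ⟨s1, o1, n1⟩ := flat_ne H h1
  obtain ⟨s2, o2, n2⟩ := flat_ne H h2
  have hsum : ∑' b : ℕ, F3 lam w K j p b = ∑ b ∈ (Nat.gcd p.1 p.2).divisors, F3 lam w K j p b := by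
    apply tsum_eq_sum
    intro b hb
    unfold F3
    rw [if_neg hb]
  rw [hsum]
  unfold F2
  rw [hT1 j p.1 p.2 s1 s2 o1 o2]
  have e : ∑ b ∈ (Nat.gcd p.1 p.2).divisors, F3 lam w K j p b =
      (((∑ b ∈ (Nat.gcd p.1 p.2).divisors, hb j b * js j (p.1 / b) * js j (p.2 / b)) *
        (flat lam p.1 * flat lam p.2 *
        Real.exp (-(Real.pi * (j * K / ((p.1 * p.2 : ℕ) : ℝ)) ^ 2))) : ℝ) : ℂ) *
      (cexp (-(2 * Real.pi * p.1 * w)) * conj (cexp (-(2 * Real.pi * p.2 * w)))) := by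
    rw [Finset.sum_mul]
    push_cast
    rw [Finset.sum_mul]
    refine Finset.sum_congr rfl fun b hb => ?_
    unfold F3
    rw [if_pos hb]
    push_cast
    ring
  rw [e]
  unfold cc
  rw [map_mul, Complex.conj_ofReal]
  have q1 : (p.1 : ℝ) ≠ 0 := by exact_mod_cast n1
  have q2 : (p.2 : ℝ) ≠ 0 := by exact_mod_cast n2
  set S := ∑ b ∈ (Nat.gcd p.1 p.2).divisors, hb j b * js j (p.1 / b) * js j (p.2 / b) with hS
  set X := Real.exp (-(Real.pi * (j * K / ((p.1 * p.2 : ℕ) : ℝ)) ^ 2)) with hX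
  have key : (flat lam p.1 * Real.sqrt p.1) * (flat lam p.2 * Real.sqrt p.2) *
      (K / ((p.1 * p.2 : ℕ) : ℝ) * (Real.sqrt p.1 * Real.sqrt p.2 * S * X)) =
      K * (S * (flat lam p.1 * flat lam p.2 * X)) := by
    have r1 : Real.sqrt p.1 * Real.sqrt p.1 = p.1 := Real.mul_self_sqrt (by positivity)
    have r2 : Real.sqrt p.2 * Real.sqrt p.2 = p.2 := Real.mul_self_sqrt (by positivity)
    push_cast
    field_simp
    rw [sq, sq, r1, r2]
    ring
  have key' := congrArg (fun t : ℝ => (t : ℂ)) key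
  simp only [Complex.ofReal_mul] at key'
  simp only [Complex.ofReal_mul]
  linear_combination (cexp (-(2 * Real.pi * p.1 * w)) *
    conj (cexp (-(2 * Real.pi * p.2 * w)))) * key'

theorem hb_abs (j : ℤ) (b : ℕ) (h0 : b ≠ 0) : |hb j b| ≤ b := by
  unfold hb
  rw [Finset.abs_prod]
  calc ∏ p ∈ b.primeFactors, |if ((p : ℤ) ^ 2 ∣ j) then (p : ℝ) - 1 else -1|
      ≤ ∏ p ∈ b.primeFactors, (p : ℝ) := by
        refine Finset.prod_le_prod (fun p _ => abs_nonneg _) fun p hp => ?_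
        have : (1 : ℝ) ≤ p := by exact_mod_cast (Nat.prime_of_mem_primeFactors hp).one_le
        split_ifs
        · rw [abs_of_nonneg (by linarith)]
          linarith
        · simpa using this
    _ = ((∏ p ∈ b.primeFactors, p : ℕ) : ℝ) := by push_cast; rfl
    _ ≤ b := by
        exact_mod_cast Nat.le_of_dvd (Nat.pos_of_ne_zero h0) (Nat.prod_primeFactors_dvd b)

theorem F3_sum {Q : ℕ} {lam : ℕ → ℝ} (H : Hecke Q lam) {w : ℂ} (hw : 0 < w.re) (K : ℝ)
    (j : ℤ) : Summable (Function.uncurry (F3 lam w K j)) := by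
  have g1 := Real.summable_pow_mul_exp_neg_nat_mul 1 (r := Real.pi * w.re) (by positivity)
  have h := (g1.mul_of_nonneg g1 (fun _ => by positivity) (fun _ => by positivity)).mul_of_nonneg
    g1 (fun _ => by positivity) (fun _ => by positivity)
  refine Summable.of_norm_bounded h ?_
  rintro ⟨⟨m, n⟩, b⟩
  show ‖F3 lam w K j (m, n) b‖ ≤ ((m : ℝ) ^ 1 * Real.exp (-(Real.pi * w.re) * m)) *
    ((n : ℝ) ^ 1 * Real.exp (-(Real.pi * w.re) * n)) * ((b : ℝ) ^ 1 * Real.exp (-(Real.pi * w.re) * b))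
  unfold F3
  split_ifs with hb'
  · have hd := Nat.dvd_of_mem_divisors hb'
    have hg0 : Nat.gcd m n ≠ 0 := (Nat.mem_divisors.1 hb').2
    have hb0 : b ≠ 0 := by
      rintro rfl
      exact hg0 (Nat.eq_zero_of_zero_dvd hd)
    simp only [pow_one]
    rcases Nat.eq_zero_or_pos m with hm | hm
    · subst hm
      rw [flat_zero]
      simp
    have hbm : b ≤ m := Nat.le_of_dvd hm (hd.trans (Nat.gcd_dvd_left m n))
    rw [norm_mul, norm_mul, Complex.norm_conj, norm_cexp, norm_cexp, Complex.norm_real,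
      Real.norm_eq_abs, abs_mul, abs_mul, abs_mul, Real.abs_exp, abs_mul, abs_mul]
    have a1 := hb_abs j b hb0
    have a2 := flat_abs H m
    have a3 := flat_abs H n
    have a4 := js_abs j (m / b)
    have a5 := js_abs j (n / b)
    have a6 : Real.exp (-(Real.pi * (j * K / ((m * n : ℕ) : ℝ)) ^ 2)) ≤ 1 := by
      rw [Real.exp_le_one_iff]
      have : 0 ≤ Real.pi * (j * K / ((m * n : ℕ) : ℝ)) ^ 2 := by positivity
      linarith
    have a7 : Real.exp (-(2 * Real.pi * m * w.re)) ≤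
        Real.exp (-(Real.pi * w.re) * m) * Real.exp (-(Real.pi * w.re) * b) := by
      rw [← Real.exp_add, Real.exp_le_exp]
      have : (b : ℝ) ≤ m := by exact_mod_cast hbm
      have hpw : 0 < Real.pi * w.re := by positivity
      nlinarith
    have a8 : Real.exp (-(2 * Real.pi * n * w.re)) ≤ Real.exp (-(Real.pi * w.re) * n) := by
      rw [Real.exp_le_exp]
      have hpw : 0 < Real.pi * w.re := by positivity
      have : (0 : ℝ) ≤ n := by positivity
      nlinarith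
    calc |hb j b| * (|flat lam m| * |js j (m / b)|) * (|flat lam n| * |js j (n / b)|) *
          Real.exp (-(Real.pi * (j * K / ((m * n : ℕ) : ℝ)) ^ 2)) *
          (Real.exp (-(2 * Real.pi * m * w.re)) * Real.exp (-(2 * Real.pi * n * w.re)))
        ≤ (b : ℝ) * (m * 1) * (n * 1) * 1 *
          ((Real.exp (-(Real.pi * w.re) * m) * Real.exp (-(Real.pi * w.re) * b)) *
            Real.exp (-(Real.pi * w.re) * n)) := by
          gcongr
      _ = _ := by ring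
  · rw [norm_zero]
    positivity

theorem flat_cof {Q : ℕ} {lam : ℕ → ℝ} (H : Hecke Q lam) (j : ℤ) (b m : ℕ) :
    flat lam (b * m) * js j m = flat lam b * cof lam j b m := by
  unfold cof
  split_ifs with h
  · rw [flat_mul H h.symm]
    ring
  · rw [mul_zero]
    unfold flat
    rw [if_neg, zero_mul]
    intro hs
    exact h (Nat.coprime_of_squarefree_mul hs).symm

theorem cof_zero (lam : ℕ → ℝ) (j : ℤ) (b : ℕ) : cof lam j b 0 = 0 := by
  unfold cof
  rw [flat_zero]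
  simp

theorem stepF {Q : ℕ} {lam : ℕ → ℝ} (H : Hecke Q lam) (w : ℂ) (K : ℝ) (j : ℤ) (b : ℕ) :
    ∑' p : ℕ × ℕ, F3 lam w K j p b =
      ((hb j b * flat lam b ^ 2 : ℝ) : ℂ) * AA (cof lam j b) b (|(j : ℝ)| * K) w := by
  rcases Nat.eq_zero_or_pos b with h0 | h0
  · subst h0
    have : ∀ p : ℕ × ℕ, F3 lam w K j p 0 = 0 := fun p => by
      unfold F3
      rw [if_neg]
      intro h
      exact (Nat.mem_divisors.1 h).2 (Nat.eq_zero_of_zero_dvd (Nat.mem_divisors.1 h).1)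
    simp_rw [this]
    rw [flat_zero]
    simp
  have hinj : Function.Injective (fun m : ℕ × ℕ => (b * m.1, b * m.2)) := by
    rintro ⟨a, c⟩ ⟨a', c'⟩ h
    simp only [Prod.mk.injEq] at h
    rw [Nat.eq_of_mul_eq_mul_left h0 h.1, Nat.eq_of_mul_eq_mul_left h0 h.2]
  have hsupp : Function.support (fun p : ℕ × ℕ => F3 lam w K j p b) ⊆
      Set.range (fun m : ℕ × ℕ => (b * m.1, b * m.2)) := by
    rintro ⟨m, n⟩ h
    rw [Function.mem_support] at h
    unfold F3 at h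
    split_ifs at h with hd
    · have hd' := Nat.dvd_of_mem_divisors hd
      obtain ⟨c, hc⟩ := hd'.trans (Nat.gcd_dvd_left m n)
      obtain ⟨d, hd⟩ := hd'.trans (Nat.gcd_dvd_right m n)
      exact ⟨(c, d), by simp only at hc hd ⊢; rw [← hc, ← hd]⟩
    · exact absurd rfl h
  rw [← hinj.tsum_eq hsupp]
  unfold AA
  rw [← tsum_mul_left]
  refine tsum_congr fun ⟨m, n⟩ => ?_
  simp only
  rcases Nat.eq_zero_or_pos m with hm | hm
  · subst hm
    unfold F3
    simp only [mul_zero]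
    rw [flat_zero, cof_zero]
    simp
  rcases Nat.eq_zero_or_pos n with hn | hn
  · subst hn
    unfold F3
    simp only [mul_zero]
    rw [flat_zero, cof_zero]
    simp
  unfold F3
  have hmem : b ∈ (Nat.gcd (b * m) (b * n)).divisors := by
    rw [Nat.mem_divisors, Nat.gcd_mul_left]
    exact ⟨dvd_mul_right _ _, by positivity⟩
  rw [if_pos hmem]
  simp only [Nat.mul_div_cancel_left _ h0]
  rw [flat_cof H, flat_cof H, ← Complex.exp_conj, ← Complex.exp_add]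
  have e1 : ((j : ℝ) * K / ((b * m * (b * n) : ℕ) : ℝ)) ^ 2 =
      (|(j : ℝ)| * K / ((b : ℝ) ^ 2 * m * n)) ^ 2 := by
    rw [div_pow, div_pow, mul_pow, mul_pow, sq_abs]
    push_cast
    ring
  rw [e1]
  have e2 : (-(2 * (Real.pi : ℂ) * ((b * m : ℕ) : ℂ) * w)) +
      conj (-(2 * (Real.pi : ℂ) * ((b * n : ℕ) : ℂ) * w)) =
      -(2 * Real.pi * b * ((m : ℂ) * w + (n : ℂ) * conj w)) := by
    simp only [map_neg, map_mul, Complex.conj_ofReal, Complex.conj_natCast, map_ofNat]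
    push_cast
    ring
  rw [e2]
  push_cast
  ring

theorem AA_zero {lam : ℕ → ℝ} (hone : lam 1 = 1) (b : ℕ) (w : ℂ) :
    ‖AA (cof lam 0 b) b 0 w‖ = Real.exp (-(4 * Real.pi * b * w.re)) := by
  have hc : ∀ m : ℕ, m ≠ 1 → cof lam 0 b m = 0 := by
    intro m hm
    unfold cof
    split_ifs with h
    · rcases Nat.lt_or_ge 1 m with h1 | h1
      · unfold js
        rw [jacobiSym.zero_left h1]
        simp
      · have : m = 0 := by omega
        rw [this, flat_zero, zero_mul]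
    · rfl
  have hc1 : cof lam 0 b 1 = 1 := by
    unfold cof flat js
    rw [if_pos (Nat.coprime_one_left b), if_pos squarefree_one, hone, jacobiSym.one_right]
    simp
  unfold AA
  rw [tsum_eq_single (1, 1)]
  · simp only [hc1]
    rw [norm_mul, Complex.norm_real, Complex.norm_exp]
    have e : (-(2 * (Real.pi : ℂ) * b * (((1 : ℕ) : ℂ) * w + ((1 : ℕ) : ℂ) * conj w))).re =
        -(4 * Real.pi * b * w.re) := by
      have : (-(2 * (Real.pi : ℂ) * b * (((1 : ℕ) : ℂ) * w + ((1 : ℕ) : ℂ) * conj w))) =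
          (((-(4 * Real.pi * b * w.re)) : ℝ) : ℂ) := by
        have h2 : w + conj w = ((2 * w.re : ℝ) : ℂ) := Complex.add_conj w
        push_cast at h2 ⊢
        linear_combination (-(2 * (Real.pi : ℂ) * b)) * h2
      rw [this, Complex.ofReal_re]
    rw [e]
    simp
  · rintro ⟨m, n⟩ hne
    have : m ≠ 1 ∨ n ≠ 1 := by
      by_contra h
      push Not at h
      exact hne (by rw [h.1, h.2])
    rcases this with h | h
    · simp only [hc m h]
      simp
    · simp only [hc n h]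
      simp

theorem T3_of (hT1 : St1) (hT2 : St2) (Q : ℕ) (lam : ℕ → ℝ) (H : Hecke Q lam) (K : ℝ) (hK : 0 < K)
    (w : ℂ) (hw : 0 < w.re) :
    ∑' k : ℤ, ENNReal.ofReal (Real.exp (-(Real.pi * (k / K) ^ 2))) * ‖G lam k w‖ₑ ^ 2 ≤
      ENNReal.ofReal K *
        ((∑' n : ℕ, ENNReal.ofReal (flat lam n ^ 2 * n * Real.exp (-(4 * Real.pi * n * w.re)))) +
        ∑' j : ℤ, if j = 0 then 0 else
          ∑' b : ℕ, ENNReal.ofReal (flat lam b ^ 2 * |hb j b|) *
            ‖AA (cof lam j b) b (|(j : ℝ)| * K) w‖ₑ) := by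
  have hs1 := F1_sum H hw hK
  have hs2 := F2_sum H hw hK
  -- the real sum
  have hreal : Summable (fun k : ℤ => EE K k * ‖G lam k w‖ ^ 2) := by
    have h := hs1.prod
    have h' : Summable (fun k : ℤ => ((EE K k * ‖G lam k w‖ ^ 2 : ℝ) : ℂ)) := by
      refine h.congr fun k => ?_
      exact (stepA H hw K k).symm
    exact Complex.summable_ofReal.1 h'
  have hid : ((∑' k : ℤ, EE K k * ‖G lam k w‖ ^ 2 : ℝ) : ℂ) =
      ∑' j : ℤ, (K : ℂ) * ∑' b : ℕ, ((hb j b * flat lam b ^ 2 : ℝ) : ℂ) *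
        AA (cof lam j b) b (|(j : ℝ)| * K) w := by
    rw [Complex.ofReal_tsum]
    simp_rw [stepA H hw K]
    rw [← hs1.tsum_comm]
    simp_rw [stepC hT2 H w hK]
    rw [hs2.tsum_comm]
    refine tsum_congr fun j => ?_
    simp_rw [stepE hT1 H w K j]
    rw [tsum_mul_left]
    congr 1
    rw [← (F3_sum H hw K j).tsum_comm]
    exact tsum_congr fun b => stepF H w K j b
  have hL : ∑' k : ℤ, ENNReal.ofReal (Real.exp (-(Real.pi * (k / K) ^ 2))) * ‖G lam k w‖ₑ ^ 2 =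
      ‖((∑' k : ℤ, EE K k * ‖G lam k w‖ ^ 2 : ℝ) : ℂ)‖ₑ := by
    have h0 : ∀ k, 0 ≤ EE K k * ‖G lam k w‖ ^ 2 := fun k =>
      mul_nonneg (EE_pos K k).le (sq_nonneg _)
    have h1 : ‖((∑' k : ℤ, EE K k * ‖G lam k w‖ ^ 2 : ℝ) : ℂ)‖ₑ =
        ENNReal.ofReal (∑' k : ℤ, EE K k * ‖G lam k w‖ ^ 2) := by
      rw [← ofReal_norm, Complex.norm_real, Real.norm_of_nonneg (tsum_nonneg h0)]
    rw [h1, ENNReal.ofReal_tsum_of_nonneg h0 hreal]
    refine tsum_congr fun k => ?_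
    rw [ENNReal.ofReal_mul (EE_pos K k).le, ENNReal.ofReal_pow (norm_nonneg _), ofReal_norm]
    rfl
  rw [hL, hid]
  refine enorm_tsum_le_tsum_enorm.trans ?_
  have hterm : ∀ j : ℤ, ‖(K : ℂ) * ∑' b : ℕ, ((hb j b * flat lam b ^ 2 : ℝ) : ℂ) *
        AA (cof lam j b) b (|(j : ℝ)| * K) w‖ₑ ≤
      ENNReal.ofReal K * ∑' b : ℕ, ENNReal.ofReal (flat lam b ^ 2 * |hb j b|) *
            ‖AA (cof lam j b) b (|(j : ℝ)| * K) w‖ₑ := by
    intro j
    rw [enorm_mul]
    have e1 : ‖(K : ℂ)‖ₑ = ENNReal.ofReal K := by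
      rw [← ofReal_norm, Complex.norm_real, Real.norm_of_nonneg hK.le]
    rw [e1]
    gcongr
    refine enorm_tsum_le_tsum_enorm.trans (le_of_eq ?_)
    refine tsum_congr fun b => ?_
    rw [enorm_mul]
    congr 1
    rw [← ofReal_norm, Complex.norm_real, Real.norm_eq_abs, abs_mul, abs_pow, sq_abs,
      mul_comm]
  refine (ENNReal.tsum_le_tsum hterm).trans ?_
  rw [ENNReal.tsum_mul_left]
  gcongr
  rw [ENNReal.tsum_eq_add_tsum_ite (0 : ℤ)]
  refine add_le_add (ENNReal.tsum_le_tsum fun b => ?_)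
    (le_of_eq (tsum_congr fun x => by split_ifs <;> rfl))
  have hz : |((0 : ℤ) : ℝ)| * K = 0 := by simp
  rw [hz, ← ofReal_norm, AA_zero H.one, ← ENNReal.ofReal_mul (by positivity)]
  apply ENNReal.ofReal_le_ofReal
  rcases Nat.eq_zero_or_pos b with h0 | h0
  · subst h0
    rw [flat_zero]
    simp
  · have h1 := hb_abs 0 b h0.ne'
    have h2 : 0 < Real.exp (-(4 * Real.pi * b * w.re)) := Real.exp_pos _
    gcongr

end

end Pool.Agent.Y496.QT
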